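import Mathlib

/-!
# A rank-one convex function `h (F₀₀ + F₁₁, F₁₀ - F₀₁) + F₀₀² - F₁₁²` which is not polyconvex
-/

set_option autoImplicit false

open Set Matrix

namespace Run7.h521.MQ

/-- the function of the conformal part -/
noncomputable def hX (x y : ℝ) : ℝ :=
  5 * x ^ 2 + y ^ 2 - x ^ 4 / 2 + 2 * x ^ 2 * y ^ 2 + 2 * y ^ 4 + x ^ 6 / 3

/-- the second derivative in singular directions -/
theorem hX_hess (x y a b c d : ℝ) (hd : a * d - c * b = 0) :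
    0 ≤ (10 - 6 * x ^ 2 + 4 * y ^ 2 + 10 * x ^ 4) * ((a + d) / 2) ^ 2
      + 2 * (8 * x * y) * ((a + d) / 2) * ((c - b) / 2)
      + (2 + 4 * x ^ 2 + 24 * y ^ 2) * ((c - b) / 2) ^ 2 + 2 * (a ^ 2 - d ^ 2) := by
  set s := 1 + 2 * x ^ 2 with hs
  have hs0 : 0 < s := by positivity
  have h30 : 0 ≤ 5 - 23 * x ^ 2 + 30 * (x ^ 2) ^ 2 := by nlinarith [sq_nonneg (60 * x ^ 2 - 23)]
  have key : 0 ≤ s * ((10 - 6 * x ^ 2 + 4 * y ^ 2 + 10 * x ^ 4) * ((a + d) / 2) ^ 2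
      + 2 * (8 * x * y) * ((a + d) / 2) * ((c - b) / 2)
      + (2 + 4 * x ^ 2 + 24 * y ^ 2) * ((c - b) / 2) ^ 2 + 2 * (a ^ 2 - d ^ 2)) := by
    have e : s * ((10 - 6 * x ^ 2 + 4 * y ^ 2 + 10 * x ^ 4) * ((a + d) / 2) ^ 2
      + 2 * (8 * x * y) * ((a + d) / 2) * ((c - b) / 2)
      + (2 + 4 * x ^ 2 + 24 * y ^ 2) * ((c - b) / 2) ^ 2 + 2 * (a ^ 2 - d ^ 2))
      = 2 * ((s * ((a - d) / 2) + 2 * ((a + d) / 2)) ^ 2 + s ^ 2 * ((b + c) / 2) ^ 2
        + 12 * s * (y * ((c - b) / 2) + x * ((a + d) / 2) / 3) ^ 2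
        + (5 - 23 * x ^ 2 + 30 * (x ^ 2) ^ 2) / 3 * (x * ((a + d) / 2)) ^ 2
        + 2 * s * (y * ((a + d) / 2)) ^ 2) := by
      rw [hs]
      linear_combination (2 * (1 + 2 * x ^ 2) ^ 2) * hd
    rw [e]
    positivity
  by_contra hcon
  push Not at hcon
  have := mul_neg_of_pos_of_neg hs0 hcon
  linarith

theorem hX_line (x y f g p q a d : ℝ) (t : ℝ) :
    HasDerivAt (fun t : ℝ => hX (x + t * p) (y + t * q) + ((f + t * a) ^ 2 - (g + t * d) ^ 2))
      ((10 * (x + t * p) - 2 * (x + t * p) ^ 3 + 4 * (x + t * p) * (y + t * q) ^ 2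
          + 2 * (x + t * p) ^ 5) * p
        + (2 * (y + t * q) + 4 * (x + t * p) ^ 2 * (y + t * q) + 8 * (y + t * q) ^ 3) * q
        + 2 * ((f + t * a) * a - (g + t * d) * d)) t := by
  have hl : ∀ u v : ℝ, HasDerivAt (fun t : ℝ => u + t * v) v t := fun u v => by
    simpa using ((hasDerivAt_id t).mul_const v).const_add u
  have hX' := hl x p
  have hY := hl y q
  have hF := hl f a
  have hG := hl g d
  unfold hX
  have t1 := (hX'.pow 2).const_mul 5
  have t2 := hY.pow 2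
  have t3 := (hX'.pow 4).div_const 2
  have t4 := ((hX'.pow 2).const_mul 2).mul (hY.pow 2)
  have t5 := (hY.pow 4).const_mul 2
  have t6 := (hX'.pow 6).div_const 3
  have t7 := (hF.pow 2).sub (hG.pow 2)
  refine ((((((t1.add t2).sub t3).add t4).add t5).add t6).add t7).congr_deriv ?_
  simp only [Pi.pow_apply]
  push_cast
  ring

theorem hX_line2 (x y f g p q a d : ℝ) (t : ℝ) :
    HasDerivAt (fun t : ℝ =>
      ((10 * (x + t * p) - 2 * (x + t * p) ^ 3 + 4 * (x + t * p) * (y + t * q) ^ 2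
          + 2 * (x + t * p) ^ 5) * p
        + (2 * (y + t * q) + 4 * (x + t * p) ^ 2 * (y + t * q) + 8 * (y + t * q) ^ 3) * q
        + 2 * ((f + t * a) * a - (g + t * d) * d)))
      ((10 - 6 * (x + t * p) ^ 2 + 4 * (y + t * q) ^ 2 + 10 * (x + t * p) ^ 4) * p ^ 2
        + 2 * (8 * (x + t * p) * (y + t * q)) * p * q
        + (2 + 4 * (x + t * p) ^ 2 + 24 * (y + t * q) ^ 2) * q ^ 2 + 2 * (a ^ 2 - d ^ 2)) t := by
  have hl : ∀ u v : ℝ, HasDerivAt (fun t : ℝ => u + t * v) v t := fun u v => by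
    simpa using ((hasDerivAt_id t).mul_const v).const_add u
  have hX' := hl x p
  have hY := hl y q
  have hF := hl f a
  have hG := hl g d
  have s1 := ((((hX'.const_mul 10).sub ((hX'.pow 3).const_mul 2)).add
    ((hX'.const_mul 4).mul (hY.pow 2))).add ((hX'.pow 5).const_mul 2)).mul_const p
  have s2 := (((hY.const_mul 2).add (((hX'.pow 2).const_mul 4).mul hY)).add
    ((hY.pow 3).const_mul 8)).mul_const q
  have s3 := ((hF.mul_const a).sub (hG.mul_const d)).const_mul 2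
  refine ((s1.add s2).add s3).congr_deriv ?_
  simp only [Pi.pow_apply]
  push_cast
  ring

/-- the example -/
noncomputable def WX (F : Matrix (Fin 2) (Fin 2) ℝ) : ℝ :=
  hX ((F 0 0 + F 1 1) / 2) ((F 1 0 - F 0 1) / 2) + (F 0 0 ^ 2 - F 1 1 ^ 2)

theorem WX_roc (F H : Matrix (Fin 2) (Fin 2) ℝ) (hH : H.det = 0) (t : ℝ) (ht0 : 0 ≤ t)
    (ht1 : t ≤ 1) :
    WX ((1 - t) • F + t • (F + H)) ≤ (1 - t) * WX F + t * WX (F + H) := by
  rw [Matrix.det_fin_two] at hH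
  set x := (F 0 0 + F 1 1) / 2 with hx
  set y := (F 1 0 - F 0 1) / 2 with hy
  set p := (H 0 0 + H 1 1) / 2 with hp
  set q := (H 1 0 - H 0 1) / 2 with hq
  have hd1 := hX_line x y (F 0 0) (F 1 1) p q (H 0 0) (H 1 1)
  have hd2 := hX_line2 x y (F 0 0) (F 1 1) p q (H 0 0) (H 1 1)
  have e1 := funext fun t => (hd1 t).deriv
  have hc : ConvexOn ℝ univ (fun t : ℝ => hX (x + t * p) (y + t * q)
      + ((F 0 0 + t * H 0 0) ^ 2 - (F 1 1 + t * H 1 1) ^ 2)) := by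
    refine convexOn_univ_of_deriv2_nonneg (fun t => (hd1 t).differentiableAt) ?_ ?_
    · rw [e1]
      exact fun t => (hd2 t).differentiableAt
    · intro t
      rw [Function.iterate_succ, Function.iterate_one, Function.comp_apply, e1]
      refine le_of_le_of_eq ?_ (hd2 t).deriv.symm
      exact hX_hess (x + t * p) (y + t * q) (H 0 0) (H 0 1) (H 1 0) (H 1 1) (by linarith)
  have h := hc.2 (mem_univ (0 : ℝ)) (mem_univ (1 : ℝ)) (show 0 ≤ 1 - t by linarith) ht0 (by ring)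
  simp only [smul_eq_mul, mul_zero, mul_one, zero_add, one_mul, zero_mul, add_zero] at h
  have hW : ∀ s : ℝ, WX (F + s • H) = hX (x + s * p) (y + s * q)
      + ((F 0 0 + s * H 0 0) ^ 2 - (F 1 1 + s * H 1 1) ^ 2) := by
    intro s
    unfold WX
    simp only [Matrix.add_apply, Matrix.smul_apply, smul_eq_mul]
    have a1 : (F 0 0 + s * H 0 0 + (F 1 1 + s * H 1 1)) / 2 = x + s * p := by rw [hx, hp]; ring
    have a2 : (F 1 0 + s * H 1 0 - (F 0 1 + s * H 0 1)) / 2 = y + s * q := by rw [hy, hq]; ring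
    rw [a1, a2]
  have w1 : (1 - t) • F + t • (F + H) = F + t • H := by module
  have w2 := hW 1
  have w3 : WX F = hX x y + (F 0 0 ^ 2 - F 1 1 ^ 2) := rfl
  rw [one_smul] at w2
  simp only [one_mul] at w2
  rw [w1, hW t, w2, w3]
  exact h

theorem WX_neg (F : Matrix (Fin 2) (Fin 2) ℝ) : WX (-F) = WX F := by
  unfold WX hX
  simp only [Matrix.neg_apply]
  ring

/-- the example is not polyconvex -/
theorem WX_not_poly : ¬ ∃ P : Matrix (Fin 2) (Fin 2) ℝ × ℝ → EReal, (∀ z, P z ≠ ⊥) ∧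
    (∀ z w : Matrix (Fin 2) (Fin 2) ℝ × ℝ, ∀ a b : ℝ, 0 ≤ a → 0 ≤ b → a + b = 1 →
      P (a • z + b • w) ≤ (a : EReal) * P z + (b : EReal) * P w) ∧
    ∀ F, P (F, F.det) = (WX F : EReal) := by
  rintro ⟨P, -, hconv, hP⟩
  have hmid : ∀ F : Matrix (Fin 2) (Fin 2) ℝ, P (0, F.det) ≤ (WX F : EReal) := by
    intro F
    have h := hconv (F, F.det) (-F, (-F).det) (1 / 2) (1 / 2) (by norm_num) (by norm_num)
      (by norm_num)
    rw [hP, hP, WX_neg] at h
    have hdet : (-F).det = F.det := by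
      rw [Matrix.det_neg]
      simp
    have e1 : (1 / 2 : ℝ) • (F, F.det) + (1 / 2 : ℝ) • (-F, (-F).det) = (0, F.det) := by
      rw [hdet]
      ext i j
      · simp
      · simp
        ring
    rw [e1] at h
    refine h.trans (le_of_eq ?_)
    rw [← EReal.coe_mul, ← EReal.coe_add]
    congr 1
    ring
  have h1 := hmid !![0, -1 / 8; 1 / 8, 0]
  have h2 := hmid !![-1, 0; 0, 3]
  have d1 : (!![0, -1 / 8; 1 / 8, 0] : Matrix (Fin 2) (Fin 2) ℝ).det = 1 / 64 := by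
    rw [Matrix.det_fin_two_of]
    norm_num
  have d2 : (!![-1, 0; 0, 3] : Matrix (Fin 2) (Fin 2) ℝ).det = -3 := by
    rw [Matrix.det_fin_two_of]
    norm_num
  rw [d1] at h1
  rw [d2] at h2
  have w1 : WX !![0, -1 / 8; 1 / 8, 0] = 33 / 2048 := by
    unfold WX hX
    simp
    norm_num
  have w2 : WX !![-1, 0; 0, 3] = -19 / 6 := by
    unfold WX hX
    simp
    norm_num
  rw [w1] at h1
  rw [w2] at h2
  have h3 := hconv (0, 1 / 64) (0, -3) (192 / 193) (1 / 193) (by norm_num) (by norm_num)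
    (by norm_num)
  have e3 : (192 / 193 : ℝ) • ((0 : Matrix (Fin 2) (Fin 2) ℝ), (1 / 64 : ℝ))
      + (1 / 193 : ℝ) • ((0 : Matrix (Fin 2) (Fin 2) ℝ), (-3 : ℝ))
      = (0, (0 : Matrix (Fin 2) (Fin 2) ℝ).det) := by
    rw [Matrix.det_fin_two]
    ext i j
    · simp
    · simp
      norm_num
  rw [e3, hP] at h3
  have w0 : WX 0 = 0 := by
    unfold WX hX
    simp
  rw [w0] at h3
  have h4 : ((192 / 193 : ℝ) : EReal) * P (0, 1 / 64)
      ≤ ((192 / 193 : ℝ) : EReal) * ((33 / 2048 : ℝ) : EReal) :=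
    mul_le_mul_of_nonneg_left h1 (by exact_mod_cast (by norm_num : (0:ℝ) ≤ 192 / 193))
  have h5 : ((1 / 193 : ℝ) : EReal) * P (0, -3)
      ≤ ((1 / 193 : ℝ) : EReal) * ((-19 / 6 : ℝ) : EReal) :=
    mul_le_mul_of_nonneg_left h2 (by exact_mod_cast (by norm_num : (0:ℝ) ≤ 1 / 193))
  have h6 := h3.trans (add_le_add h4 h5)
  rw [← EReal.coe_mul, ← EReal.coe_mul, ← EReal.coe_add, EReal.coe_le_coe_iff] at h6
  norm_num at h6

end Run7.h521.MQ
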