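import Pool.Agent.Run7.h521.MQ.Main

/-!
# Mollification of `h`
-/

set_option autoImplicit false

open MeasureTheory Set Filter Topology

namespace Run7.h521.MQ

open Pool.Agent.W779.Morrey Pool.Agent.N555.MQ

theorem dt_smul (s : ℝ) (H : E) : dt (s • H) = s ^ 2 * dt H := by
  simp only [dt, Pi.smul_apply, smul_eq_mul]; ring

/-- the inequality for `h` -/
def HI (h : V → ℝ) (P : E →L[ℝ] V) (B : E →L[ℝ] E →L[ℝ] ℝ) : Prop :=
  ∀ H : E, dt H = 0 → ∀ t : ℝ, 0 ≤ t → t ≤ 1 → ∀ v : V,
    h (v + t • P H) ≤ (1 - t) * h v + t * h (v + P H) + t * (1 - t) * B H H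

theorem HI_of_roc {h : V → ℝ} {P : E →L[ℝ] V} {B : E →L[ℝ] E →L[ℝ] ℝ} (Z : V → E)
    (hZ : ∀ v, P (Z v) = v)
    (hroc : ∀ F H : E, dt H = 0 → ∀ t : ℝ, 0 ≤ t → t ≤ 1 →
      h (P (F + t • H)) + B (F + t • H) (F + t • H)
        ≤ (1 - t) * (h (P F) + B F F) + t * (h (P (F + H)) + B (F + H) (F + H))) :
    HI h P B := by
  intro H hH t ht0 ht1 v
  have h1 := hroc (Z v) H hH t ht0 ht1
  rw [map_add P, map_smul P, map_add P, hZ] at h1
  simp only [map_add, map_smul, _root_.add_apply, FunLike.coe_smul, Pi.smul_apply,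
    smul_eq_mul] at h1
  linarith

/-- the second derivative of the mollified function in rank-one directions -/
theorem second_roc {h : V → ℝ} (hc : Continuous h) {P : E →L[ℝ] V} {B : E →L[ℝ] E →L[ℝ] ℝ}
    (Z : V → E) (hZ : ∀ v, P (Z v) = v) (hh : HI h P B) (n : ℕ) (v : V) (H : E)
    (hH : dt H = 0) : 0 ≤ fderiv ℝ (fderiv ℝ (hm h n)) v (P H) (P H) + 2 * B H H := by
  have hsm := hm_contDiff hc n
  have h1 : fderiv ℝ (fderiv ℝ (fun F : E => hm h n (P F) + B F F)) (Z v) H H
      = fderiv ℝ (fderiv ℝ (hm h n)) v (P H) (P H) + 2 * B H H := by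
    rw [second_WL hsm P B, hZ]
  rw [← h1]
  refine second_nonneg (contDiff_WL hsm P B) _ _ fun s u t ht0 ht1 => ?_
  have hdu : dt (u • H) = 0 := by rw [dt_smul, hH, mul_zero]
  have h2 := hm_ineq hc (fun v => hh (u • H) hdu t ht0 ht1 v) n (P (Z v + s • H))
  rw [← map_smul P t, ← map_add P, ← map_add P] at h2
  simp only [map_add B, map_smul, map_add, _root_.add_apply, FunLike.coe_smul, Pi.smul_apply,
    smul_eq_mul] at h2 ⊢
  linarith

/-- two bilinear forms: from the mollified functions to `h` -/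
theorem limit_moll {h : V → ℝ} (hc : Continuous h) (P : E →L[ℝ] V) (B D : E →L[ℝ] E →L[ℝ] ℝ)
    (hq : ∀ n : ℕ, QCtrig (fun F => hm h n (P F) + (B + (1 / ((n : ℝ) + 1)) • D) F F)) :
    QCtrig (fun F => h (P F) + B F F) := by
  have hn : ∀ n : ℕ, 0 ≤ 1 / ((n : ℝ) + 1) ∧ 1 / ((n : ℝ) + 1) ≤ 1 := by
    intro n
    have : (0:ℝ) ≤ n := Nat.cast_nonneg n
    constructor
    · positivity
    · rw [div_le_one (by positivity)]; linarith
  refine QCtrig_limit (Wn := fun n F => hm h n (P F) + (B + (1 / ((n : ℝ) + 1)) • D) F F) hq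
    (fun n => ?_) (fun F => ?_) (fun R => ?_)
  · exact (contDiff_WL (hm_contDiff hc n) P _).continuous
  · refine (hm_tendsto hc (P F)).add ?_
    have h1 : Tendsto (fun n : ℕ => 1 / ((n : ℝ) + 1)) atTop (𝓝 0) :=
      tendsto_one_div_add_atTop_nhds_zero_nat
    have h2 : Tendsto (fun n : ℕ => B F F + (1 / ((n : ℝ) + 1)) * D F F) atTop
        (𝓝 (B F F + 0 * D F F)) := (h1.mul_const _).const_add _
    simpa using h2
  · obtain ⟨C1, hC1⟩ := (isCompact_closedBall (0 : V)
      (‖P‖ * R + 1)).exists_bound_of_continuousOn hc.continuousOn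
    have hBc : Continuous (fun F : E => B F F) := B.continuous.clm_apply continuous_id
    have hDc : Continuous (fun F : E => D F F) := D.continuous.clm_apply continuous_id
    obtain ⟨C2, hC2⟩ := (isCompact_closedBall (0 : E) R).exists_bound_of_continuousOn
      hBc.continuousOn
    obtain ⟨C3, hC3⟩ := (isCompact_closedBall (0 : E) R).exists_bound_of_continuousOn
      hDc.continuousOn
    refine ⟨C1 + (C2 + C3), fun n F hF => ?_⟩
    have hcF : ‖P F‖ ≤ ‖P‖ * R :=
      (P.le_opNorm F).trans (mul_le_mul_of_nonneg_left hF (norm_nonneg _))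
    have b1 : |hm h n (P F)| ≤ C1 := hm_bound hc (fun x hx => by
      have := hC1 x (by rwa [mem_closedBall_zero_iff])
      rwa [Real.norm_eq_abs] at this) n hcF
    have b2 : |B F F| ≤ C2 := by
      have := hC2 F (by rwa [mem_closedBall_zero_iff])
      rwa [Real.norm_eq_abs] at this
    have b3 : |D F F| ≤ C3 := by
      have := hC3 F (by rwa [mem_closedBall_zero_iff])
      rwa [Real.norm_eq_abs] at this
    have b4 : |(B + (1 / ((n : ℝ) + 1)) • D) F F| ≤ C2 + C3 := by
      have e : (B + (1 / ((n : ℝ) + 1)) • D) F F = B F F + (1 / ((n : ℝ) + 1)) * D F F := by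
        simp
      rw [e]
      refine (abs_add_le _ _).trans (add_le_add b2 ?_)
      rw [abs_mul, abs_of_nonneg (hn n).1]
      calc 1 / ((n : ℝ) + 1) * |D F F| ≤ 1 * |D F F| :=
            mul_le_mul_of_nonneg_right (hn n).2 (abs_nonneg _)
        _ ≤ C3 := by rw [one_mul]; exact b3
    exact (abs_add_le _ _).trans (add_le_add b1 b4)

/-- singular matrices -/
theorem dt_zero {N : E} (h : dt N = 0) : ∃ κ z : V, N = tens κ z := by
  unfold dt at h
  by_cases h0 : N 0 = 0
  · refine ⟨![0, 1], N 1, ?_⟩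
    ext r l
    fin_cases r
    · simp [tens, h0]
    · simp [tens]
  · have h1 : N 0 0 ≠ 0 ∨ N 0 1 ≠ 0 := by
      by_contra hcon
      push Not at hcon
      apply h0
      ext j
      fin_cases j
      · exact hcon.1
      · exact hcon.2
    rcases h1 with h1 | h1
    · refine ⟨![1, N 1 0 / N 0 0], N 0, ?_⟩
      ext r l
      fin_cases r
      · simp [tens]
      · fin_cases l
        · simp [tens, h1]
        · change N 1 1 = N 1 0 / N 0 0 * N 0 1
          field_simp
          linarith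
    · refine ⟨![1, N 1 1 / N 0 1], N 0, ?_⟩
      ext r l
      fin_cases r
      · simp [tens]
      · fin_cases l
        · change N 1 0 = N 1 1 / N 0 1 * N 0 0
          field_simp
          linarith
        · simp [tens, h1]

end Run7.h521.MQ
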