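import Pool.Agent.Run7.h521.MQ.Common

/-!
# Functions of the conformal part plus a quadratic form
-/

set_option autoImplicit false

open MeasureTheory Set Filter Topology

namespace Run7.h521.MQ

open Pool.Agent.W779.Morrey Pool.Agent.N555.MQ

/-- the conformal part, as a vector -/
noncomputable def cpL : E →L[ℝ] V :=
  LinearMap.toContinuousLinearMap (E := E) (F' := V)
    { toFun := fun F => ![(F 0 0 + F 1 1) / 2, (F 1 0 - F 0 1) / 2]
      map_add' := by intro v w; ext r; fin_cases r <;> simp <;> ring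
      map_smul' := by intro s w; ext r; fin_cases r <;> simp <;> ring }

/-- the anticonformal part, as a vector -/
noncomputable def apL : E →L[ℝ] V :=
  LinearMap.toContinuousLinearMap (E := E) (F' := V)
    { toFun := fun F => ![(F 0 0 - F 1 1) / 2, (F 1 0 + F 0 1) / 2]
      map_add' := by intro v w; ext r; fin_cases r <;> simp <;> ring
      map_smul' := by intro s w; ext r; fin_cases r <;> simp <;> ring }

/-- the conformal matrices -/
noncomputable def cfL : V →L[ℝ] E :=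
  LinearMap.toContinuousLinearMap (E := V) (F' := E)
    { toFun := fun w => ![![w 0, -w 1], ![w 1, w 0]]
      map_add' := by intro v w; ext r l; fin_cases r <;> fin_cases l <;> simp; ring
      map_smul' := by intro s w; ext r l; fin_cases r <;> fin_cases l <;> simp }

/-- the anticonformal matrices -/
noncomputable def anL : V →L[ℝ] E :=
  LinearMap.toContinuousLinearMap (E := V) (F' := E)
    { toFun := fun w => ![![w 0, w 1], ![w 1, -w 0]]
      map_add' := by intro v w; ext r l; fin_cases r <;> fin_cases l <;> simp; ring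
      map_smul' := by intro s w; ext r l; fin_cases r <;> fin_cases l <;> simp }

/-- multiplication by `i` -/
noncomputable def rotL : V →L[ℝ] V :=
  LinearMap.toContinuousLinearMap (E := V) (F' := V)
    { toFun := fun w => ![-w 1, w 0]
      map_add' := by intro v w; ext r; fin_cases r <;> simp; ring
      map_smul' := by intro s w; ext r; fin_cases r <;> simp }

theorem cpL_apply (F : E) : cpL F = ![(F 0 0 + F 1 1) / 2, (F 1 0 - F 0 1) / 2] := rfl
theorem apL_apply (F : E) : apL F = ![(F 0 0 - F 1 1) / 2, (F 1 0 + F 0 1) / 2] := rfl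
theorem cfL_apply (w : V) : cfL w = ![![w 0, -w 1], ![w 1, w 0]] := rfl
theorem anL_apply (w : V) : anL w = ![![w 0, w 1], ![w 1, -w 0]] := rfl
theorem rotL_apply (w : V) : rotL w = ![-w 1, w 0] := rfl

theorem cf_add_an (F : E) : cfL (cpL F) + anL (apL F) = F := by
  ext r l; fin_cases r <;> fin_cases l <;> simp [cfL_apply, anL_apply, cpL_apply, apL_apply] <;> ring

theorem cp_cf (w : V) : cpL (cfL w) = w := by
  ext r; fin_cases r <;> simp [cfL_apply, cpL_apply]

theorem cp_an (w : V) : cpL (anL w) = 0 := by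
  ext r; fin_cases r <;> simp [anL_apply, cpL_apply]

theorem dt_cf_an (z w : V) : dt (cfL z + anL w) = z 0 ^ 2 + z 1 ^ 2 - w 0 ^ 2 - w 1 ^ 2 := by
  simp [dt, cfL_apply, anL_apply]; ring

/-- the conformal matrix of the row `m` -/
noncomputable def cfp (m : Fin 2) : E →L[ℝ] E :=
  cfL.comp (ContinuousLinearMap.proj (R := ℝ) (φ := fun _ : Fin 2 => V) m)

/-- the anticonformal matrix of the row `m` -/
noncomputable def anp (m : Fin 2) : E →L[ℝ] E :=
  anL.comp (ContinuousLinearMap.proj (R := ℝ) (φ := fun _ : Fin 2 => V) m)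

/-- the anticonformal matrix of `i` times the row `m` -/
noncomputable def anr (m : Fin 2) : E →L[ℝ] E :=
  (anL.comp rotL).comp (ContinuousLinearMap.proj (R := ℝ) (φ := fun _ : Fin 2 => V) m)

/-- the quadratic form of the dissipation -/
noncomputable def RC (B : E →L[ℝ] E →L[ℝ] ℝ) (c : ℝ) : E →L[ℝ] E →L[ℝ] ℝ :=
  B.bilinearComp (cfp 0) (cfp 0) + B.bilinearComp (cfp 1) (cfp 1) + BK c
    + (B.bilinearComp (cfp 0) (anp 0) - B.bilinearComp (cfp 1) (anp 1)
      + (2 : ℝ) • B.bilinearComp (cfp 0) (anr 1))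
    + (B.bilinearComp (anp 0) (cfp 0) - B.bilinearComp (anp 1) (cfp 1)
      + (2 : ℝ) • B.bilinearComp (anr 1) (cfp 0))

theorem RC_apply (B : E →L[ℝ] E →L[ℝ] ℝ) (c : ℝ) (N N' : E) :
    RC B c N N' = B (cfL (N 0)) (cfL (N' 0)) + B (cfL (N 1)) (cfL (N' 1))
      + c * (N 0 0 * N' 0 0 + N 0 1 * N' 0 1 + N 1 0 * N' 1 0 + N 1 1 * N' 1 1)
      + (B (cfL (N 0)) (anL (N' 0)) - B (cfL (N 1)) (anL (N' 1))
        + 2 * B (cfL (N 0)) (anL (rotL (N' 1))))
      + (B (anL (N 0)) (cfL (N' 0)) - B (anL (N 1)) (cfL (N' 1))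
        + 2 * B (anL (rotL (N 1))) (cfL (N' 0))) := by
  simp only [RC, _root_.add_apply, _root_.sub_apply, FunLike.coe_smul, Pi.smul_apply, smul_eq_mul,
    ContinuousLinearMap.bilinearComp_apply, BK_apply]
  rfl

/-- the unit vectors -/
def u0 : V := Pi.single 0 1
def u1 : V := Pi.single 1 1

theorem dv_u0 (N : E) : dv u0 N = N 0 := by
  simp [dv, u0]
theorem dv_u1 (N : E) : dv u1 N = N 1 := by
  simp [dv, u1]
theorem ip_u0 (κ : V) : ip u0 κ = κ 0 := by
  simp [ip, u0]
theorem ip_u1 (κ : V) : ip u1 κ = κ 1 := by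
  simp [ip, u1]

/-- the square of the frequency acting on a vector -/
noncomputable def sqv (κ z : V) : V :=
  (κ 0 ^ 2 - κ 1 ^ 2) • z + (2 * κ 0 * κ 1) • rotL z

theorem sqv_norm (κ z : V) : (sqv κ z) 0 ^ 2 + (sqv κ z) 1 ^ 2
    = (κ 0 ^ 2 + κ 1 ^ 2) ^ 2 * (z 0 ^ 2 + z 1 ^ 2) := by
  simp only [sqv, rotL_apply, Pi.add_apply, Pi.smul_apply, smul_eq_mul, Matrix.cons_val_zero,
    Matrix.cons_val_one]
  ring

/-- the anticonformal part of a wave -/
theorem ap_tens (κ c : V) : (κ 0 ^ 2 + κ 1 ^ 2) • apL (tens c κ) = sqv κ (cpL (tens c κ)) := by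
  ext r
  fin_cases r
  · simp [apL_apply, cpL_apply, sqv, rotL_apply, tens]
    ring
  · simp [apL_apply, cpL_apply, sqv, rotL_apply, tens]
    ring

theorem RC_zt (B : E →L[ℝ] E →L[ℝ] ℝ) (c : ℝ) (κ z z' : V) :
    RC B c (fun m => κ m • z) (fun m => κ m • z')
      = (κ 0 ^ 2 + κ 1 ^ 2) * (B (cfL z) (cfL z') + c * (z 0 * z' 0 + z 1 * z' 1))
        + B (cfL z) (anL (sqv κ z')) + B (anL (sqv κ z)) (cfL z') := by
  rw [RC_apply]
  simp only [sqv, map_smul, map_add, FunLike.coe_smul, Pi.smul_apply, smul_eq_mul,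
    _root_.add_apply]
  ring

theorem QZ_conf (B : E →L[ℝ] E →L[ℝ] ℝ) (c : ℝ)
    (hBc : ∀ w w' : V, B (anL w) (anL w') = c * (w 0 * w' 0 + w 1 * w' 1)) (κ a a' : V) :
    QZ cpL B (RC B c) u0 u1 κ a a' = 0 := by
  unfold QZ
  rw [ip_u0, ip_u1]
  have e1 : ∀ a : V, zt cpL κ a = fun m => κ m • cpL (tens a κ) := fun a => rfl
  rw [e1, e1, RC_zt, ← ap_tens, ← ap_tens]
  have h1 : B (tens a κ) (tens a' κ) = B (cfL (cpL (tens a κ))) (cfL (cpL (tens a' κ)))
      + B (cfL (cpL (tens a κ))) (anL (apL (tens a' κ)))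
      + B (anL (apL (tens a κ))) (cfL (cpL (tens a' κ)))
      + B (anL (apL (tens a κ))) (anL (apL (tens a' κ))) := by
    conv_lhs => rw [← cf_add_an (tens a κ), ← cf_add_an (tens a' κ)]
    simp only [map_add, _root_.add_apply]
    ring
  rw [h1, hBc]
  simp only [map_smul, FunLike.coe_smul, Pi.smul_apply, smul_eq_mul]
  have h2 : apL (tens a κ) 0 * apL (tens a' κ) 0 + apL (tens a κ) 1 * apL (tens a' κ) 1
      = cpL (tens a κ) 0 * cpL (tens a' κ) 0 + cpL (tens a κ) 1 * cpL (tens a' κ) 1 := by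
    simp only [apL_apply, cpL_apply, tens, Matrix.cons_val_zero, Matrix.cons_val_one]
    ring
  rw [h2]
  ring

/-- the form in singular directions -/
theorem phi_conf {h : V → ℝ} (B : E →L[ℝ] E →L[ℝ] ℝ) (hsym : ∀ F G, B F G = B G F) (c : ℝ)
    (hBc : ∀ w w' : V, B (anL w) (anL w') = c * (w 0 * w' 0 + w 1 * w' 1)) (v : V)
    (hs : ∀ H : E, dt H = 0 → 0 ≤ fderiv ℝ (fderiv ℝ h) v (cpL H) (cpL H) + 2 * B H H)
    (N : E) (hd : dt N = 0) : 0 ≤ Phi h (RC B c) u0 u1 v N := by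
  obtain ⟨κ, z, hN⟩ := dt_zero hd
  have hN' : N = fun m => κ m • z := by
    rw [hN]; ext r l; simp [tens]
  subst hN'
  unfold Phi
  rw [dv_u0, dv_u1, RC_zt]
  set s := κ 0 ^ 2 + κ 1 ^ 2 with hsdef
  have hs0 : 0 ≤ s := by positivity
  have hdt : dt (cfL (s • z) + anL (sqv κ z)) = 0 := by
    rw [dt_cf_an]
    have := sqv_norm κ z
    simp only [Pi.smul_apply, smul_eq_mul]
    rw [← hsdef] at this
    linarith
  have h1 := hs _ hdt
  rw [map_add, cp_cf, cp_an, add_zero] at h1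
  simp only [map_smul, map_add, FunLike.coe_smul, Pi.smul_apply, smul_eq_mul,
    _root_.add_apply] at h1 ⊢
  rw [hBc, hsym (anL (sqv κ z)) (cfL z)] at h1
  rw [hsym (anL (sqv κ z)) (cfL z)]
  set X := fderiv ℝ (fderiv ℝ h) v z z with hX
  set Y := B (cfL z) (cfL z) with hY
  set U := B (cfL z) (anL (sqv κ z)) with hU
  have hn := sqv_norm κ z
  rw [← hsdef] at hn
  rcases hs0.lt_or_eq with hpos | h0
  · have h2 : 0 ≤ s * (κ 0 * (κ 0 * X) + κ 1 * (κ 1 * X)
        + 2 * (s * (Y + c * (z 0 * z 0 + z 1 * z 1)) + U + U)) := by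
      have e : κ 0 * (κ 0 * X) + κ 1 * (κ 1 * X) = s * X := by rw [hsdef]; ring
      rw [e]
      have e2 : c * (sqv κ z 0 * sqv κ z 0 + sqv κ z 1 * sqv κ z 1)
          = s ^ 2 * (c * (z 0 * z 0 + z 1 * z 1)) := by
        linear_combination c * hn
      rw [e2] at h1
      linarith
    exact nonneg_of_mul_nonneg_right h2 hpos
  · have k0 : κ 0 = 0 := by nlinarith [sq_nonneg (κ 0), sq_nonneg (κ 1)]
    have k1 : κ 1 = 0 := by nlinarith [sq_nonneg (κ 0), sq_nonneg (κ 1)]
    have hsq : sqv κ z = 0 := by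
      unfold sqv; rw [k0, k1]; simp
    rw [hU, hsq, ← h0, k0, k1]
    simp

/-- **Functions of the conformal part plus a quadratic form**, smooth case. -/
theorem conf_trig {h : V → ℝ} (hh : ContDiff ℝ 2 h) (B : E →L[ℝ] E →L[ℝ] ℝ)
    (hsym : ∀ F G, B F G = B G F) (c : ℝ)
    (hBc : ∀ w w' : V, B (anL w) (anL w') = c * (w 0 * w' 0 + w 1 * w' 1))
    (hs : ∀ (v : V) (H : E), dt H = 0 →
      0 ≤ fderiv ℝ (fderiv ℝ h) v (cpL H) (cpL H) + 2 * B H H) :
    QCtrig (fun F : E => h (cpL F) + B F F) := by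
  intro ι _ F₀ k a b
  exact trig_gen hh cpL B (RC B c) u0 u1
    (fun κ h0 h1 => by
      rw [ip_u0] at h0
      rw [ip_u1] at h1
      ext j; fin_cases j
      · exact h0
      · exact h1)
    ⊤ trivial trivial (fun _ _ => trivial)
    (fun v N _ hd => phi_conf B hsym c hBc v (hs v) N hd)
    (fun _ _ => True) (fun _ _ _ => trivial)
    (fun κ a a' _ _ => QZ_conf B c hBc κ a a')
    F₀ k a b (fun _ => trivial) (fun _ => trivial)

/-- **Functions of the conformal part plus a quadratic form.** -/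
theorem conf_main {h : V → ℝ} (hc : Continuous h) (B : E →L[ℝ] E →L[ℝ] ℝ)
    (hsym : ∀ F G, B F G = B G F) (c : ℝ)
    (hBc : ∀ w w' : V, B (anL w) (anL w') = c * (w 0 * w' 0 + w 1 * w' 1))
    (hh : HI h cpL B) : QCtrig (fun F : E => h (cpL F) + B F F) := by
  refine limit_moll hc cpL B 0 fun n => ?_
  have e : B + (1 / ((n : ℝ) + 1)) • (0 : E →L[ℝ] E →L[ℝ] ℝ) = B := by
    ext F G; simp
  rw [e]
  exact conf_trig (hm_contDiff hc n) B hsym c hBc fun v H hH => second_roc hc cfL cp_cf hh n v H hH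

end Run7.h521.MQ
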