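import Pool.Agent.Run7.h521.MQ.Row
import Pool.Agent.Run7.h521.MQ.Conf

/-!
# Changes of coordinates and the theorem for one row
-/

set_option autoImplicit false

open MeasureTheory Set Filter Topology Matrix

namespace Run7.h521.MQ

open Pool.Agent.W779.Morrey Pool.Agent.N555.MQ

/-- the isomorphism of an invertible matrix -/
noncomputable def iso (A : Matrix (Fin 2) (Fin 2) ℝ) (hA : A.det ≠ 0) : V ≃L[ℝ] V :=
  (Matrix.toLinearEquiv' A (A.invertibleOfIsUnitDet (isUnit_iff_ne_zero.2 hA))).toContinuousLinearEquiv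

theorem iso_apply (A : Matrix (Fin 2) (Fin 2) ℝ) (hA : A.det ≠ 0) (v : V) :
    iso A hA v = A *ᵥ v := by
  have h := LinearMap.congr_fun
    (Matrix.toLinearEquiv'_apply A (A.invertibleOfIsUnitDet (isUnit_iff_ne_zero.2 hA))) v
  rw [Matrix.toLin'_apply] at h
  exact h

theorem iso_coe (A : Matrix (Fin 2) (Fin 2) ℝ) (hA : A.det ≠ 0) :
    (((iso A hA : V ≃L[ℝ] V) : V →L[ℝ] V) : V →ₗ[ℝ] V) = Matrix.toLin' A := by
  ext v i
  simp [iso_apply]

/-- Quasiconvexity is invariant under multiplication with invertible matrices. -/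
theorem QC_mul {W : Matrix (Fin 2) (Fin 2) ℝ → ℝ} (A C : Matrix (Fin 2) (Fin 2) ℝ)
    (hA : A.det ≠ 0) (hC : C.det ≠ 0) (h : QC W) : QC (fun F => W (A * F * C)) := by
  rintro F₀ Ω hΩ hb ϑ ⟨K, hK⟩ h0
  set eA := iso A hA with heA
  set eC := iso C hC with heC
  have hgrad : ∀ y, LinearMap.toMatrix' ((fderiv ℝ (fun y => eA (ϑ (eC y))) y : V →L[ℝ] V) : V →ₗ[ℝ] V)
      = A * LinearMap.toMatrix' ((fderiv ℝ ϑ (eC y) : V →L[ℝ] V) : V →ₗ[ℝ] V) * C := by
    intro y
    have e1 : fderiv ℝ (fun y => eA (ϑ (eC y))) y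
        = (eA : V →L[ℝ] V).comp ((fderiv ℝ ϑ (eC y)).comp (eC : V →L[ℝ] V)) := by
      have a1 := eA.comp_fderiv (f := fun y => ϑ (eC y)) (x := y)
      have a2 := eC.comp_right_fderiv (f := ϑ) (x := y)
      have a3 : (fun y => eA (ϑ (eC y))) = eA ∘ fun y => ϑ (eC y) := rfl
      have a4 : (fun y => ϑ (eC y)) = ϑ ∘ eC := rfl
      rw [a3, a1, a4, a2]
    rw [e1]
    have e2 : (((eA : V →L[ℝ] V).comp ((fderiv ℝ ϑ (eC y)).comp (eC : V →L[ℝ] V)) : V →L[ℝ] V)
        : V →ₗ[ℝ] V) = (Matrix.toLin' A).comp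
          (((fderiv ℝ ϑ (eC y) : V →L[ℝ] V) : V →ₗ[ℝ] V).comp (Matrix.toLin' C)) := by
      rw [← iso_coe A hA, ← iso_coe C hC]
      rfl
    rw [e2, LinearMap.toMatrix'_comp, LinearMap.toMatrix'_comp, LinearMap.toMatrix'_toLin',
      LinearMap.toMatrix'_toLin', Matrix.mul_assoc]
  have hlipC : LipschitzWith ‖(eC : V →L[ℝ] V)‖₊ eC := (eC : V →L[ℝ] V).lipschitz
  have hlipA : LipschitzWith ‖(eA : V →L[ℝ] V)‖₊ eA := (eA : V →L[ℝ] V).lipschitz
  have hbΩ : Bornology.IsBounded (eC ⁻¹' Ω) := by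
    have e : eC ⁻¹' Ω = eC.symm '' Ω := by
      ext x
      constructor
      · intro hx
        exact ⟨eC x, hx, by simp⟩
      · rintro ⟨y, hy, rfl⟩
        simpa using hy
    rw [e]
    exact ((eC.symm : V →L[ℝ] V).lipschitz).isBounded_image hb
  have key := h (A * F₀ * C) (eC ⁻¹' Ω) (hΩ.preimage eC.continuous) hbΩ
    (fun y => eA (ϑ (eC y))) ⟨_, hlipA.comp (hK.comp hlipC)⟩
    (fun x hx => by
      have : ϑ (eC x) = 0 := h0 _ hx
      rw [this, map_zero])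
  have hdet : LinearMap.det (((eC : V ≃L[ℝ] V) : V →L[ℝ] V) : V →ₗ[ℝ] V) ≠ 0 := by
    rw [heC, iso_coe, LinearMap.det_toLin']
    exact hC
  set κ : ℝ := |(LinearMap.det (((eC : V ≃L[ℝ] V) : V →L[ℝ] V) : V →ₗ[ℝ] V))⁻¹| with hκ
  have hκ0 : 0 < κ := abs_pos.2 (inv_ne_zero hdet)
  have hmap : Measure.map eC (volume : Measure V) = ENNReal.ofReal κ • (volume : Measure V) := by
    have := Measure.map_linearMap_addHaar_eq_smul_addHaar (μ := (volume : Measure V)) hdet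
    exact this
  have hvol : (volume (eC ⁻¹' Ω)).toReal = κ * (volume Ω).toReal := by
    have e := Measure.map_apply (μ := (volume : Measure V)) eC.continuous.measurable
      hΩ.measurableSet
    rw [← e, hmap, Measure.smul_apply, smul_eq_mul, ENNReal.toReal_mul,
      ENNReal.toReal_ofReal hκ0.le]
  set g : V → ℝ := fun x => W (A * (F₀ + LinearMap.toMatrix'
    ((fderiv ℝ ϑ x : V →L[ℝ] V) : V →ₗ[ℝ] V)) * C) with hg
  have hint : ∫ y in eC ⁻¹' Ω, g (eC y) = κ * ∫ x in Ω, g x := by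
    have e := (eC.toHomeomorph.measurableEmbedding).setIntegral_map (μ := (volume : Measure V)) g Ω
    have e1 : (eC.toHomeomorph : V → V) = eC := rfl
    rw [e1, hmap] at e
    rw [← e, Measure.restrict_smul, integral_smul_measure, ENNReal.toReal_ofReal hκ0.le,
      smul_eq_mul]
  have hlast : ∫ y in eC ⁻¹' Ω, W (A * F₀ * C + LinearMap.toMatrix'
      ((fderiv ℝ (fun y => eA (ϑ (eC y))) y : V →L[ℝ] V) : V →ₗ[ℝ] V))
      = ∫ y in eC ⁻¹' Ω, g (eC y) := by
    refine integral_congr_ae (Eventually.of_forall fun y => ?_)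
    simp only [hg]
    rw [hgrad, Matrix.mul_add, Matrix.add_mul]
  rw [hlast, hint, hvol] at key
  have k2 : κ * (W (A * F₀ * C) * (volume Ω).toReal) ≤ κ * ∫ x in Ω, g x := by
    linarith
  exact le_of_mul_le_mul_left k2 hκ0

/-- the linear map `F ↦ W F` on `E` -/
noncomputable def oL : E →ₗ[ℝ] Matrix (Fin 2) (Fin 2) ℝ :=
  (Matrix.ofLinearEquiv ℝ : E ≃ₗ[ℝ] Matrix (Fin 2) (Fin 2) ℝ).toLinearMap

theorem oL_apply (F : E) : oL F = of F := rfl

/-- the symmetric bilinear form of a quadratic form composed with a linear map -/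
noncomputable def BQ (Q : QuadraticForm ℝ (Matrix (Fin 2) (Fin 2) ℝ))
    (T : E →ₗ[ℝ] Matrix (Fin 2) (Fin 2) ℝ) : E →L[ℝ] E →L[ℝ] ℝ :=
  LinearMap.toContinuousBilinearMap
    ((QuadraticMap.associated Q : LinearMap.BilinForm ℝ (Matrix (Fin 2) (Fin 2) ℝ)).compl₁₂ T T)

theorem BQ_self (Q : QuadraticForm ℝ (Matrix (Fin 2) (Fin 2) ℝ))
    (T : E →ₗ[ℝ] Matrix (Fin 2) (Fin 2) ℝ) (F : E) : BQ Q T F F = Q (T F) :=
  QuadraticMap.associated_eq_self_apply ℝ Q (T F)

theorem BQ_symm (Q : QuadraticForm ℝ (Matrix (Fin 2) (Fin 2) ℝ))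
    (T : E →ₗ[ℝ] Matrix (Fin 2) (Fin 2) ℝ) (F G : E) : BQ Q T F G = BQ Q T G F :=
  QuadraticMap.associated_isSymm ℝ Q (T F) (T G)

/-- from a theorem for trigonometric polynomials to a class of functions of matrices -/
theorem fin_gen (P : E →L[ℝ] V) (Z : V →L[ℝ] E) (hPZ : ∀ v, P (Z v) = v)
    (T : E →ₗ[ℝ] Matrix (Fin 2) (Fin 2) ℝ) (hT : ∀ H : E, dt H = 0 → (T H).det = 0)
    (g : V → ℝ) (Q : QuadraticForm ℝ (Matrix (Fin 2) (Fin 2) ℝ))
    (L : Matrix (Fin 2) (Fin 2) ℝ →ₗ[ℝ] ℝ) (W : Matrix (Fin 2) (Fin 2) ℝ → ℝ)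
    (hroc : Pool.Agent.Helper188.Morrey.RankOneConvex W)
    (hW : ∀ F : E, W (T F) = g (P F) + Q (T F) + L (T F))
    (main : Continuous g → HI g P (BQ Q T) → QCtrig (fun F : E => g (P F) + BQ Q T F F)) :
    Continuous (fun F : E => W (T F)) ∧ QCtrig (fun F : E => W (T F)) := by
  set L' : E →L[ℝ] ℝ := LinearMap.toContinuousLinearMap (E := E) (F' := ℝ) (L ∘ₗ T) with hL'
  have hLL : ∀ F : E, L' F = L (T F) := fun F => rfl
  have hTc : Continuous (T : E → Matrix (Fin 2) (Fin 2) ℝ) := by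
    have := (LinearMap.toContinuousLinearMap (E := E)
      (F' := Matrix (Fin 2) (Fin 2) ℝ) T).continuous
    exact this
  have hc : Continuous fun F : E => W (T F) := hroc.continuous.comp hTc
  refine ⟨hc, ?_⟩
  have e3 : ∀ F : E, W (T F) = g (P F) + BQ Q T F F + L' F := by
    intro F
    rw [hW, BQ_self, hLL]
  have e : (fun F : E => W (T F)) = fun F : E => (g (P F) + BQ Q T F F) + L' F := funext e3
  have hBc : Continuous (fun F : E => BQ Q T F F) := (BQ Q T).continuous.clm_apply continuous_id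
  have hgc : Continuous g := by
    have h1 : g = fun v => W (T (Z v)) - BQ Q T (Z v) (Z v) - L' (Z v) := by
      funext v
      rw [e3, hPZ]
      ring
    rw [h1]
    exact ((hc.comp Z.continuous).sub (hBc.comp Z.continuous)).sub
      (L'.continuous.comp Z.continuous)
  have hcW : Continuous (fun F : E => g (P F) + BQ Q T F F) :=
    (hgc.comp P.continuous).add hBc
  rw [e]
  refine QCtrig_add_lin ?_ hcW L'
  refine main hgc (HI_of_roc Z hPZ fun F H hH t ht0 ht1 => ?_)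
  have h1 := hroc.seg (T F) (T H) (hT H hH) ht0 ht1
  rw [← map_smul, ← map_add, ← map_add] at h1
  rw [e3, e3, e3] at h1
  have g1 : L' (F + t • H) = L' F + t * L' H := by rw [map_add, map_smul, smul_eq_mul]
  have g2 : L' (F + H) = L' F + L' H := map_add _ _ _
  rw [g1, g2] at h1
  linarith

/-- **One row plus a polynomial of degree two.** -/
theorem fin_row (α : V) (h : V → ℝ) (Q : QuadraticForm ℝ (Matrix (Fin 2) (Fin 2) ℝ))
    (L : Matrix (Fin 2) (Fin 2) ℝ →ₗ[ℝ] ℝ)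
    (hroc : Pool.Agent.Helper188.Morrey.RankOneConvex fun F => h (α ᵥ* F) + Q F + L F) :
    QC fun F => h (α ᵥ* F) + Q F + L F := by
  have key : ∀ (γ : V) (g : V → ℝ), γ ≠ 0 →
      (∀ F : Matrix (Fin 2) (Fin 2) ℝ, h (α ᵥ* F) = g (γ ᵥ* F)) →
      QC fun F => h (α ᵥ* F) + Q F + L F := by
    intro γ g hγ hg
    have hn : 0 < γ 0 ^ 2 + γ 1 ^ 2 := pos_sq hγ
    set A : Matrix (Fin 2) (Fin 2) ℝ := !![γ 0, γ 1; -γ 1, γ 0] with hA
    have hdA : A.det = γ 0 ^ 2 + γ 1 ^ 2 := by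
      rw [hA, Matrix.det_fin_two_of]; ring
    have hdA0 : A.det ≠ 0 := by rw [hdA]; exact hn.ne'
    have hu : IsUnit A.det := isUnit_iff_ne_zero.2 hdA0
    set W : Matrix (Fin 2) (Fin 2) ℝ → ℝ := fun F => h (α ᵥ* F) + Q F + L F with hWdef
    set T : E →ₗ[ℝ] Matrix (Fin 2) (Fin 2) ℝ := (LinearMap.mulLeft ℝ A⁻¹).comp oL with hT
    have hTa : ∀ F : E, T F = A⁻¹ * of F := fun F => rfl
    have hrow : ∀ F : E, γ ᵥ* (A⁻¹ * of F) = F 0 := by
      intro F
      have e1 : γ = (Pi.single 0 1 : V) ᵥ* A := by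
        ext j; fin_cases j <;> simp [hA, Matrix.vecMul, dotProduct, Fin.sum_univ_two]
      have e2 : γ ᵥ* (A⁻¹ * of F) = (Pi.single 0 1 : V) ᵥ* (of F) := by
        conv_lhs => rw [e1]
        rw [Matrix.vecMul_vecMul, ← Matrix.mul_assoc, Matrix.mul_nonsing_inv A hu, Matrix.one_mul]
      rw [e2]
      ext j
      simp [Matrix.vecMul, dotProduct, Fin.sum_univ_two]
    obtain ⟨hc, hq⟩ := fin_gen rowL upL row_up T (fun H hH => by
        rw [hTa, Matrix.det_mul, det_of, hH, mul_zero]) g Q L W hroc (fun F => by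
        rw [hWdef]
        simp only
        rw [hg, hTa, hrow, rowL_apply]) (fun hgc hh => row_main hgc _ (BQ_symm Q T) hh)
    have hQC : QC (fun G => W (A⁻¹ * G)) := QC_of_trig hc hq
    have h2 := QC_mul A 1 hdA0 (by simp) hQC
    have e : (fun F : Matrix (Fin 2) (Fin 2) ℝ => W (A⁻¹ * (A * F * 1))) = W := by
      funext F
      rw [Matrix.mul_one, ← Matrix.mul_assoc, Matrix.nonsing_inv_mul A hu, Matrix.one_mul]
    rw [e] at h2
    exact h2
  by_cases hα : α = 0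
  · exact key ![1, 0] (fun _ => h 0) (fun h => by simpa using congrFun h 0)
      (fun F => by rw [hα, Matrix.zero_vecMul])
  · exact key α h hα fun F => rfl

end Run7.h521.MQ
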