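import Pool.Agent.Run7.h521.MQ.FinA

/-!
# Functions of two linear functions whose common kernel contains no rank-one matrix
-/

set_option autoImplicit false

open MeasureTheory Set Filter Topology Matrix

namespace Run7.h521.MQ

open Pool.Agent.W779.Morrey Pool.Agent.N555.MQ

/-- the form `F ↦ A⁻¹ F C⁻¹` -/
noncomputable def TAC (A C : Matrix (Fin 2) (Fin 2) ℝ) : E →ₗ[ℝ] Matrix (Fin 2) (Fin 2) ℝ :=
  (LinearMap.mulRight ℝ C⁻¹).comp ((LinearMap.mulLeft ℝ A⁻¹).comp oL)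

theorem TAC_apply (A C : Matrix (Fin 2) (Fin 2) ℝ) (F : E) : TAC A C F = A⁻¹ * of F * C⁻¹ := rfl

/-- **The conformal theorem in general coordinates.** -/
theorem fin_conf (A C : Matrix (Fin 2) (Fin 2) ℝ) (hA : A.det ≠ 0) (hC : C.det ≠ 0)
    (g : V → ℝ) (Q : QuadraticForm ℝ (Matrix (Fin 2) (Fin 2) ℝ))
    (L : Matrix (Fin 2) (Fin 2) ℝ →ₗ[ℝ] ℝ) (W : Matrix (Fin 2) (Fin 2) ℝ → ℝ) (c : ℝ)
    (hQ : ∀ w : V, Q (TAC A C (anL w)) = c * (w 0 ^ 2 + w 1 ^ 2))
    (hroc : Pool.Agent.Helper188.Morrey.RankOneConvex W)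
    (hW : ∀ F : E, W (TAC A C F) = g (cpL F) + Q (TAC A C F) + L (TAC A C F)) : QC W := by
  have hu : IsUnit A.det := isUnit_iff_ne_zero.2 hA
  have hv : IsUnit C.det := isUnit_iff_ne_zero.2 hC
  have hBc : ∀ w w' : V, BQ Q (TAC A C) (anL w) (anL w') = c * (w 0 * w' 0 + w 1 * w' 1) := by
    intro w w'
    have h1 := BQ_self Q (TAC A C) (anL (w + w'))
    rw [hQ, map_add] at h1
    simp only [map_add, _root_.add_apply, Pi.add_apply] at h1
    rw [BQ_self, BQ_self, hQ, hQ, BQ_symm Q (TAC A C) (anL w') (anL w)] at h1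
    linarith
  obtain ⟨hc, hq⟩ := fin_gen cpL cfL cp_cf (TAC A C) (fun H hH => by
      rw [TAC_apply, Matrix.det_mul, Matrix.det_mul, det_of, hH, mul_zero, zero_mul]) g Q L W hroc
    hW (fun hgc hh => conf_main hgc _ (BQ_symm Q _) c hBc hh)
  have hQC : QC (fun G => W (A⁻¹ * G * C⁻¹)) := QC_of_trig hc hq
  have h2 := QC_mul A C hA hC hQC
  have e : (fun F : Matrix (Fin 2) (Fin 2) ℝ => W (A⁻¹ * (A * F * C) * C⁻¹)) = W := by
    funext F
    congr 1
    rw [Matrix.mul_assoc A F C, ← Matrix.mul_assoc A⁻¹, Matrix.nonsing_inv_mul A hu,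
      Matrix.one_mul, Matrix.mul_assoc, Matrix.mul_nonsing_inv C hv, Matrix.mul_one]
  rw [e] at h2
  exact h2

/-- the matrix with the rows `v` and `w` -/
def rows (v w : V) : Matrix (Fin 2) (Fin 2) ℝ := of ![v, w]

theorem det_rows (v w : V) : (rows v w).det = v 0 * w 1 - v 1 * w 0 := by
  rw [Matrix.det_fin_two]
  simp [rows]

/-- Normal form of a plane without rank-one matrices. -/
theorem normal_form (P : Matrix (Fin 2) (Fin 2) ℝ →ₗ[ℝ] V)
    (hP : ∀ H : Matrix (Fin 2) (Fin 2) ℝ, P H = 0 → H.det = 0 → H = 0) :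
    ∃ (A C M : Matrix (Fin 2) (Fin 2) ℝ), A.det ≠ 0 ∧ C.det ≠ 0 ∧
      ∀ F : Matrix (Fin 2) (Fin 2) ℝ, P F = M *ᵥ cpL (of.symm (A * F * C)) := by
  set S : Matrix (Fin 2) (Fin 2) ℝ :=
    of fun i j => P (rows (Pi.single j 1) 0) i with hS
  set T : Matrix (Fin 2) (Fin 2) ℝ :=
    of fun i j => P (rows 0 (Pi.single j 1)) i with hT
  have hrow : ∀ v w : V, rows v w = v 0 • rows (Pi.single 0 1) 0 + v 1 • rows (Pi.single 1 1) 0
      + w 0 • rows 0 (Pi.single 0 1) + w 1 • rows 0 (Pi.single 1 1) := by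
    intro v w
    ext i j
    fin_cases i <;> fin_cases j <;> simp [rows]
  have hPF : ∀ v w : V, P (rows v w) = S *ᵥ v + T *ᵥ w := by
    intro v w
    rw [hrow]
    ext i
    simp only [map_add, map_smul, Pi.add_apply, Pi.smul_apply, smul_eq_mul, hS, hT,
      Matrix.mulVec, dotProduct, Fin.sum_univ_two, of_apply]
    ring
  have hSdet : S.det ≠ 0 := by
    intro h0
    obtain ⟨v, hv0, hv⟩ := Matrix.exists_mulVec_eq_zero_iff.2 h0
    have h1 := hP (rows v 0) (by rw [hPF, hv]; simp) (by rw [det_rows]; simp)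
    apply hv0
    ext j
    have := congrFun (congrFun h1 0) j
    simpa [rows] using this
  have huS : IsUnit S.det := isUnit_iff_ne_zero.2 hSdet
  set N : Matrix (Fin 2) (Fin 2) ℝ := -(S⁻¹ * T) with hN
  have hSN : S * N = -T := by
    rw [hN, Matrix.mul_neg, ← Matrix.mul_assoc, Matrix.mul_nonsing_inv S huS, Matrix.one_mul]
  have hker : ∀ w : V, P (rows (N *ᵥ w) w) = 0 := by
    intro w
    rw [hPF, Matrix.mulVec_mulVec, hSN, Matrix.neg_mulVec]
    simp
  have hNd : ∀ w : V, (rows (N *ᵥ w) w).det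
      = N 0 1 * w 1 ^ 2 + (N 0 0 - N 1 1) * w 0 * w 1 - N 1 0 * w 0 ^ 2 := by
    intro w
    rw [det_rows]
    simp only [Matrix.mulVec, dotProduct, Fin.sum_univ_two]
    ring
  have hne : ∀ w : V, N 0 1 * w 1 ^ 2 + (N 0 0 - N 1 1) * w 0 * w 1 - N 1 0 * w 0 ^ 2 = 0 →
      w = 0 := by
    intro w hw
    have h1 := hP _ (hker w) (by rw [hNd]; exact hw)
    ext j
    have := congrFun (congrFun h1 1) j
    simpa [rows] using this
  set D : ℝ := (N 0 0 - N 1 1) ^ 2 + 4 * N 0 1 * N 1 0 with hD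
  have hDneg : D < 0 := by
    by_contra hcon
    push Not at hcon
    by_cases h10 : N 1 0 = 0
    · have := hne ![1, 0] (by simp [h10])
      have := congrFun this 0
      simp at this
    · have hs := Real.sq_sqrt hcon
      have := hne ![(N 0 0 - N 1 1) + Real.sqrt D, 2 * N 1 0] (by
        simp only [Matrix.cons_val_zero, Matrix.cons_val_one]
        have e : N 0 1 * (2 * N 1 0) ^ 2
            + (N 0 0 - N 1 1) * (N 0 0 - N 1 1 + Real.sqrt D) * (2 * N 1 0)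
            - N 1 0 * (N 0 0 - N 1 1 + Real.sqrt D) ^ 2
            = N 1 0 * (D - Real.sqrt D ^ 2) := by
          rw [hD]; ring
        rw [e, hs]; ring)
      have := congrFun this 1
      simp at this
      exact h10 this
  set α : ℝ := (N 0 0 + N 1 1) / 2 with hα
  set β : ℝ := Real.sqrt (-D) / 2 with hβ
  have hβ0 : 0 < β := by
    have : 0 < Real.sqrt (-D) := Real.sqrt_pos.2 (by linarith)
    positivity
  have hβ2 : 4 * β ^ 2 = -D := by
    have := Real.sq_sqrt (show (0:ℝ) ≤ -D by linarith)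
    rw [hβ]
    linarith
  set j0 : ℝ := (N 0 0 - N 1 1) / (2 * β) with hj0
  set j1 : ℝ := N 0 1 / β with hj1
  set j2 : ℝ := N 1 0 / β with hj2
  have hjj : j0 ^ 2 + j1 * j2 = -1 := by
    rw [hj0, hj1, hj2]
    field_simp
    rw [hD] at hβ2
    linarith
  have hj1' : j1 ≠ 0 := by
    intro h
    rw [h] at hjj
    nlinarith [sq_nonneg j0]
  set A : Matrix (Fin 2) (Fin 2) ℝ := !![1, -α; 0, β] with hA
  set R : Matrix (Fin 2) (Fin 2) ℝ := !![1, 0; -j0, -j1] with hR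
  have hdA : A.det = β := by rw [hA, Matrix.det_fin_two_of]; ring
  have hdR : R.det = -j1 := by rw [hR, Matrix.det_fin_two_of]; ring
  have hdR0 : R.det ≠ 0 := by rw [hdR]; exact neg_ne_zero.2 hj1'
  have huR : IsUnit R.det := isUnit_iff_ne_zero.2 hdR0
  refine ⟨A, Rᵀ, S * R⁻¹ * !![2, 0; 0, -2], by rw [hdA]; exact hβ0.ne',
    by rw [Matrix.det_transpose]; exact hdR0, fun F => ?_⟩
  have hF : F = rows (F 0) (F 1) := by
    ext i j
    fin_cases i <;> simp [rows]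
  -- `P F = S (F₀ - N F₁)`
  have h1 : P F = S *ᵥ (F 0 - N *ᵥ F 1) := by
    conv_lhs => rw [hF]
    rw [hPF, Matrix.mulVec_sub, Matrix.mulVec_mulVec, hSN, Matrix.neg_mulVec, sub_neg_eq_add]
  -- the conformal part
  have h2 : R *ᵥ (F 0 - N *ᵥ F 1) = !![2, 0; 0, -2] *ᵥ cpL (of.symm (A * F * Rᵀ)) := by
    have n00 : N 0 0 = α + β * j0 := by rw [hα, hj0]; field_simp; ring
    have n11 : N 1 1 = α - β * j0 := by rw [hα, hj0]; field_simp; ring
    have n01 : N 0 1 = β * j1 := by rw [hj1]; field_simp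
    have n10 : N 1 0 = β * j2 := by rw [hj2]; field_simp
    have hent : ∀ i j, (A * F * Rᵀ) i j = (A i 0 * F 0 0 + A i 1 * F 1 0) * R j 0
        + (A i 0 * F 0 1 + A i 1 * F 1 1) * R j 1 := by
      intro i j
      simp only [Matrix.mul_apply, Fin.sum_univ_two, Matrix.transpose_apply]
    have a00 : A 0 0 = 1 := rfl
    have a01 : A 0 1 = -α := rfl
    have a10 : A 1 0 = 0 := rfl
    have a11 : A 1 1 = β := rfl
    have r00 : R 0 0 = 1 := rfl
    have r01 : R 0 1 = 0 := rfl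
    have r10 : R 1 0 = -j0 := rfl
    have r11 : R 1 1 = -j1 := rfl
    have ecp : cpL (of.symm (A * F * Rᵀ)) = ![((A * F * Rᵀ) 0 0 + (A * F * Rᵀ) 1 1) / 2,
        ((A * F * Rᵀ) 1 0 - (A * F * Rᵀ) 0 1) / 2] := rfl
    rw [ecp]
    simp only [hent, a00, a01, a10, a11, r00, r01, r10, r11]
    clear_value j0 j1 j2 α β A R
    ext i
    fin_cases i
    · simp only [Matrix.mulVec, dotProduct, Fin.sum_univ_two, Fin.zero_eta, Pi.sub_apply,
        r00, r01, n00, n01, n10, n11, Matrix.of_apply, Matrix.cons_val_zero, Matrix.cons_val_one]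
      simp
      ring
    · simp only [Matrix.mulVec, dotProduct, Fin.sum_univ_two, Fin.mk_one, Pi.sub_apply,
        r10, r11, n00, n01, n10, n11, Matrix.of_apply, Matrix.cons_val_zero, Matrix.cons_val_one]
      simp
      linear_combination (F 1 0 * β) * hjj
  rw [h1]
  have h3 : F 0 - N *ᵥ F 1 = R⁻¹ *ᵥ (R *ᵥ (F 0 - N *ᵥ F 1)) := by
    rw [Matrix.mulVec_mulVec, Matrix.nonsing_inv_mul R huR, Matrix.one_mulVec]
  rw [h3, h2, Matrix.mulVec_mulVec, Matrix.mulVec_mulVec, Matrix.mul_assoc]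

/-- **Two linear functions whose common kernel contains no rank-one matrix.** -/
theorem fin_plane (P : Matrix (Fin 2) (Fin 2) ℝ →ₗ[ℝ] V)
    (hP : ∀ H : Matrix (Fin 2) (Fin 2) ℝ, P H = 0 → H.det = 0 → H = 0)
    (h : V → ℝ) (Q : QuadraticForm ℝ (Matrix (Fin 2) (Fin 2) ℝ))
    (L : Matrix (Fin 2) (Fin 2) ℝ →ₗ[ℝ] ℝ) (c : ℝ)
    (hQ : ∀ H : Matrix (Fin 2) (Fin 2) ℝ, P H = 0 → Q H = c * H.det)
    (hroc : Pool.Agent.Helper188.Morrey.RankOneConvex fun F => h (P F) + Q F + L F) :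
    QC fun F => h (P F) + Q F + L F := by
  obtain ⟨A, C, M, hA, hC, hM⟩ := normal_form P hP
  have hu : IsUnit A.det := isUnit_iff_ne_zero.2 hA
  have hv : IsUnit C.det := isUnit_iff_ne_zero.2 hC
  have hinv : ∀ F : E, A * (TAC A C F) * C = of F := by
    intro F
    rw [TAC_apply, Matrix.mul_assoc A⁻¹, ← Matrix.mul_assoc A, Matrix.mul_nonsing_inv A hu,
      Matrix.one_mul, Matrix.mul_assoc, Matrix.nonsing_inv_mul C hv, Matrix.mul_one]
  have hPT : ∀ F : E, P (TAC A C F) = M *ᵥ cpL F := by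
    intro F
    rw [hM, hinv]
    rfl
  refine fin_conf A C hA hC (fun v => h (M *ᵥ v)) Q L _ (-(c * (A⁻¹).det * (C⁻¹).det))
    (fun w => ?_) hroc (fun F => ?_)
  · have h1 : P (TAC A C (anL w)) = 0 := by rw [hPT, cp_an, Matrix.mulVec_zero]
    rw [hQ _ h1, TAC_apply, Matrix.det_mul, Matrix.det_mul, det_of]
    have h2 : dt (anL w) = -(w 0 ^ 2 + w 1 ^ 2) := by
      simp [dt, anL_apply]; ring
    rw [h2]
    ring
  · rw [hPT]

end Run7.h521.MQ
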