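import Pool.Agent.Run7.h521.MQ.Orth

/-!
# The heat flow for `W(F) = h(P F) + B(F, F)` with a multiplier depending on `P F`
-/

set_option autoImplicit false

open MeasureTheory Set Filter Topology

namespace Run7.h521.MQ

open Pool.Agent.W779.Morrey Pool.Agent.N555.MQ

variable {ι : Type*} [Fintype ι]

/-- the damping exponents -/
noncomputable def lam (β γ : V) (k : ι → Fin 2 → ℤ) (i : ι) : ℝ := fr β k i ^ 2 + fr γ k i ^ 2

/-- the coefficients at time `t` -/
noncomputable def dg (β γ : V) (k : ι → Fin 2 → ℤ) (t : ℝ) (A : ι → E) : ι → E :=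
  fun i => Real.exp (-(t * lam β γ k i)) • A i

/-- one direction -/
theorem dis1 {W : E → ℝ} (hW : ContDiff ℝ 2 W) (β : V) (F₀ : E) (k : ι → Fin 2 → ℤ)
    (A B : ι → E) :
    ∫ x in Icc (0 : V) 1, (fderiv ℝ (fderiv ℝ W) (F₀ + Fam k A B 1 x)
        (Fam k (ml β k B) (fun i => - ml β k A i) 1 x)
        (Fam k (ml β k B) (fun i => - ml β k A i) 1 x)
      + fderiv ℝ W (F₀ + Fam k A B 1 x)
        (Fam k (fun i => -(fr β k i ^ 2) • A i) (fun i => -(fr β k i ^ 2) • B i) 1 x)) = 0 := by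
  have hdir : ∀ x, β 0 • Fam k (dA k B 0) (dB k A 0) 1 x + β 1 • Fam k (dA k B 1) (dB k A 1) 1 x
      = Fam k (ml β k B) (fun i => - ml β k A i) 1 x := fun x => dir_Fam β k A B x
  have hdis := dissip hW β (fun x => F₀ + Fam k A B 1 x)
    (fun j => Fam k (dA k B j) (dB k A j) 1)
    (fun l => Fam k (dA k (fun i => - ml β k A i) l) (dB k (ml β k B) l) 1)
    (fun x => (hasFDerivAt_Fam k A B 1 x).const_add F₀)
    (fun x => by
      simp only [hdir]
      exact hasFDerivAt_Fam k (ml β k B) (fun i => - ml β k A i) 1 x)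
    (fun j => continuous_Fam k _ _ 1) (fun l => continuous_Fam k _ _ 1)
    (fun i x => by rw [Fam_periodic]) (fun j i x => by rw [Fam_periodic])
  simp only [hdir] at hdis
  have hdir2 : ∀ x, β 0 • Fam k (dA k (fun i => - ml β k A i) 0) (dB k (ml β k B) 0) 1 x
      + β 1 • Fam k (dA k (fun i => - ml β k A i) 1) (dB k (ml β k B) 1) 1 x
      = Fam k (fun i => -(fr β k i ^ 2) • A i) (fun i => -(fr β k i ^ 2) • B i) 1 x := by
    intro x
    rw [dir_Fam β k (ml β k B) (fun i => - ml β k A i) x]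
    simp only [Fam_one]
    refine Finset.sum_congr rfl fun i _ => ?_
    ext r l
    simp only [tm, ml, Pi.add_apply, Pi.smul_apply, Pi.neg_apply, smul_eq_mul]
    ring
  simp only [hdir2] at hdis
  exact hdis

/-- the derivative of `P F` along `F` -/
noncomputable def PG (P : E →L[ℝ] V) (k : ι → Fin 2 → ℤ) (A B : ι → E) (x : V) : E :=
  fun m => P (Fam k (dA k B m) (dB k A m) 1 x)

/-- the derivative in the direction `β` -/
def dv (β : V) (N : E) : V := β 0 • N 0 + β 1 • N 1

theorem P_dir (P : E →L[ℝ] V) (β : V) (k : ι → Fin 2 → ℤ) (A B : ι → E) (x : V) :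
    P (Fam k (ml β k B) (fun i => - ml β k A i) 1 x) = dv β (PG P k A B x) := by
  rw [← dir_Fam, map_add, map_smul, map_smul]
  rfl

theorem P_comp (P : E →L[ℝ] V) {F : V → E} {G : Fin 2 → E} {x : V} (h : HasFDerivAt F (mk' G) x)
    (r : Fin 2) : HasFDerivAt (fun x => P (F x) r) (mk' fun j => P (G j) r) x := by
  have h1 := ((ContinuousLinearMap.proj (R := ℝ) (φ := fun _ : Fin 2 => ℝ) r).comp
    P).hasFDerivAt.comp x h
  refine h1.congr_fderiv ?_
  ext v
  simp [mk', Fin.sum_univ_two]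

theorem pmap_gen (P : E →L[ℝ] V) (F₀ : E) (k : ι → Fin 2 → ℤ) (A B : ι → E) :
    PMap (fun x => P (F₀ + Fam k A B 1 x))
      (fun r l x => P (Fam k (dA k B l) (dB k A l) 1 x) r)
      (fun r l m x => P (Fam k (dA k (dB k A l) m) (dB k (dA k B l) m) 1 x) r) where
  d1 := fun r x => P_comp P ((hasFDerivAt_Fam k A B 1 x).const_add F₀) r
  d2 := fun r l x => P_comp P (hasFDerivAt_Fam k (dA k B l) (dB k A l) 1 x) r
  c2 := fun r l m => (continuous_apply r).comp (P.continuous.comp (continuous_Fam k _ _ 1))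
  symm := by
    intro r x
    have e1 : dA k (dB k A 0) 1 = dA k (dB k A 1) 0 := by
      funext i
      simp only [dA, dB, smul_neg, smul_smul]
      ring_nf
    have e2 : dB k (dA k B 0) 1 = dB k (dA k B 1) 0 := by
      funext i
      simp only [dA, dB, smul_smul]
      ring_nf
    simp only [e1, e2]
  pp := by
    intro i x
    simp only [Fam_periodic]
  pJ := by
    intro r l i x
    simp only [Fam_periodic]

theorem dJ_eq (P : E →L[ℝ] V) (k : ι → Fin 2 → ℤ) (A B : ι → E) (x : V) :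
    dJ (fun r l x => P (Fam k (dA k B l) (dB k A l) 1 x) r) x = dt (PG P k A B x) := by
  simp only [dJ, dt, PG]
  ring

theorem continuous_PG (P : E →L[ℝ] V) (k : ι → Fin 2 → ℤ) (A B : ι → E) :
    Continuous (PG P k A B) :=
  continuous_pi fun _ => P.continuous.comp (continuous_Fam k _ _ 1)

theorem continuous_dv (β : V) : Continuous (dv β) := by
  unfold dv
  fun_prop

/-- the quadratic form of the dissipation -/
noncomputable def Phi (h : V → ℝ) (R : E →L[ℝ] E →L[ℝ] ℝ) (β γ : V) (v : V) (N : E) : ℝ :=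
  fderiv ℝ (fderiv ℝ h) v (dv β N) (dv β N) + fderiv ℝ (fderiv ℝ h) v (dv γ N) (dv γ N)
    + 2 * R N N

/-- one step: the energy decreases -/
theorem step_gen {h : V → ℝ} (hh : ContDiff ℝ 2 h) (P : E →L[ℝ] V) (B R : E →L[ℝ] E →L[ℝ] ℝ)
    (β γ : V) (S : E → Prop) {ℓ : V → ℝ} (hℓ : Measurable ℓ)
    (hb : ∀ R : ℝ, ∃ C : ℝ, ∀ v : V, ‖v‖ ≤ R → |ℓ v| ≤ C)
    (hcond : ∀ (v : V) (N : E), S N → 0 ≤ Phi h R β γ v N + ℓ v * dt N)
    (F₀ : E) (k : ι → Fin 2 → ℤ) (A D : ι → E)
    (hS : ∀ x, S (PG P k A D x))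
    (hR : ∫ x in Icc (0 : V) 1,
      (B (Fam k (ml β k D) (fun i => - ml β k A i) 1 x)
          (Fam k (ml β k D) (fun i => - ml β k A i) 1 x)
        + B (Fam k (ml γ k D) (fun i => - ml γ k A i) 1 x)
          (Fam k (ml γ k D) (fun i => - ml γ k A i) 1 x)
        - R (PG P k A D x) (PG P k A D x)) = 0) :
    ∫ x in Icc (0 : V) 1, fderiv ℝ (fun F : E => h (P F) + B F F) (F₀ + Fam k A D 1 x)
      (Fam k (fun i => -(lam β γ k i) • A i) (fun i => -(lam β γ k i) • D i) 1 x) ≤ 0 := by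
  set W : E → ℝ := fun F : E => h (P F) + B F F with hWdef
  have hW : ContDiff ℝ 2 W := contDiff_WL hh P B
  have hP1 : ContDiff ℝ 1 (fderiv ℝ W) := hW.fderiv_right (by norm_num)
  have hHc : Continuous (fderiv ℝ (fderiv ℝ W)) := hP1.continuous_fderiv (by norm_num)
  have hh1 : ContDiff ℝ 1 (fderiv ℝ h) := hh.fderiv_right (by norm_num)
  have hhc : Continuous (fderiv ℝ (fderiv ℝ h)) := hh1.continuous_fderiv (by norm_num)
  have hFc : Continuous (fun x => F₀ + Fam k A D 1 x) :=
    continuous_const.add (continuous_Fam k A D 1)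
  have hPM := pmap_gen P F₀ k A D
  have d1 := dis1 hW β F₀ k A D
  have d2 := dis1 hW γ F₀ k A D
  set Gβ := Fam k (ml β k D) (fun i => - ml β k A i) 1 with hGβ
  set Gγ := Fam k (ml γ k D) (fun i => - ml γ k A i) 1 with hGγ
  set N := PG P k A D with hN
  have cGβ : Continuous Gβ := continuous_Fam k _ _ 1
  have cGγ : Continuous Gγ := continuous_Fam k _ _ 1
  have cN : Continuous N := continuous_PG P k A D
  -- the null Lagrangian
  have hpc := hPM.contp
  obtain ⟨R', hR'⟩ := (isCompact_Icc (a := (0 : V)) (b := 1)).exists_bound_of_continuousOn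
    hpc.continuousOn
  obtain ⟨C, hC⟩ := hb R'
  have hbd : ∀ x, |(fun v => if ‖v‖ ≤ R' then ℓ v else 0)
      (P (F₀ + Fam k A D 1 x))| ≤ |C| := by
    intro x
    simp only
    split_ifs with h
    · exact (hC _ h).trans (le_abs_self C)
    · simp
  have hmeas : Measurable (fun v : V => if ‖v‖ ≤ R' then ℓ v else 0) :=
    Measurable.ite (measurableSet_le measurable_norm measurable_const) hℓ measurable_const
  have hnull := null2 hPM hmeas |C| hbd
  have hnull2 : ∫ x in Icc (0 : V) 1, ℓ (P (F₀ + Fam k A D 1 x)) * dt (N x) = 0 := by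
    rw [← hnull]
    refine setIntegral_congr_fun measurableSet_Icc fun x hx => ?_
    change _ = (if ‖P (F₀ + Fam k A D 1 x)‖ ≤ R' then ℓ (P (F₀ + Fam k A D 1 x)) else 0)
        * dJ (fun r l x => P (Fam k (dA k D l) (dB k A l) 1 x) r) x
    rw [if_pos (hR' x hx), dJ_eq]
  -- integrability
  have hdtc : Continuous (fun x => dt (N x)) := continuous_dt.comp cN
  have hi3 : IntegrableOn (fun x => ℓ (P (F₀ + Fam k A D 1 x)) * dt (N x)) (Icc (0 : V) 1) := by
    have h1 : IntegrableOn (fun x => (fun v => if ‖v‖ ≤ R' then ℓ v else 0)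
        (P (F₀ + Fam k A D 1 x)) * dt (N x)) (Icc (0 : V) 1) := by
      refine Integrable.bdd_mul (c := |C|) hdtc.integrableOn_Icc ?_ (Eventually.of_forall hbd)
      exact (hmeas.comp hpc.measurable).aestronglyMeasurable
    refine h1.congr_fun (fun x hx => ?_) measurableSet_Icc
    change (if ‖P (F₀ + Fam k A D 1 x)‖ ≤ R' then ℓ (P (F₀ + Fam k A D 1 x)) else 0)
        * dt (N x) = _
    rw [if_pos (hR' x hx)]
  have cPhi : Continuous (fun x => Phi h R β γ (P (F₀ + Fam k A D 1 x)) (N x)) := by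
    unfold Phi
    have c0 := hhc.comp hpc
    have c1 : Continuous (fun x => dv β (N x)) := (continuous_dv β).comp cN
    have c2 : Continuous (fun x => dv γ (N x)) := (continuous_dv γ).comp cN
    exact (((c0.clm_apply c1).clm_apply c1).add ((c0.clm_apply c2).clm_apply c2)).add
      (continuous_const.mul ((R.continuous.comp cN).clm_apply cN))
  have hnn : 0 ≤ ∫ x in Icc (0 : V) 1, (Phi h R β γ (P (F₀ + Fam k A D 1 x)) (N x)
      + ℓ (P (F₀ + Fam k A D 1 x)) * dt (N x)) :=
    integral_nonneg fun x => hcond _ _ (hS x)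
  rw [integral_add cPhi.integrableOn_Icc hi3, hnull2, add_zero] at hnn
  -- the sum of the two directions
  have s2 : ∀ x (G : E), fderiv ℝ (fderiv ℝ W) (F₀ + Fam k A D 1 x) G G
      = fderiv ℝ (fderiv ℝ h) (P (F₀ + Fam k A D 1 x)) (P G) (P G) + 2 * B G G := fun x G =>
    second_WL hh P B _ _
  have pβ : ∀ x, P (Gβ x) = dv β (N x) := fun x => P_dir P β k A D x
  have pγ : ∀ x, P (Gγ x) = dv γ (N x) := fun x => P_dir P γ k A D x
  have cT : ∀ (e : ι → ℝ), Continuous (fun x => fderiv ℝ W (F₀ + Fam k A D 1 x)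
      (Fam k (fun i => -(e i) • A i) (fun i => -(e i) • D i) 1 x)) := fun e =>
    (hP1.continuous.comp hFc).clm_apply (continuous_Fam k _ _ 1)
  have cβ : Continuous (fun x => fderiv ℝ (fderiv ℝ W) (F₀ + Fam k A D 1 x) (Gβ x) (Gβ x)) :=
    ((hHc.comp hFc).clm_apply cGβ).clm_apply cGβ
  have cγ : Continuous (fun x => fderiv ℝ (fderiv ℝ W) (F₀ + Fam k A D 1 x) (Gγ x) (Gγ x)) :=
    ((hHc.comp hFc).clm_apply cGγ).clm_apply cGγ
  rw [integral_add cβ.integrableOn_Icc (cT fun i => fr β k i ^ 2).integrableOn_Icc] at d1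
  rw [integral_add cγ.integrableOn_Icc (cT fun i => fr γ k i ^ 2).integrableOn_Icc] at d2
  have hlam : ∫ x in Icc (0 : V) 1, fderiv ℝ W (F₀ + Fam k A D 1 x)
      (Fam k (fun i => -(lam β γ k i) • A i) (fun i => -(lam β γ k i) • D i) 1 x)
      = (∫ x in Icc (0 : V) 1, fderiv ℝ W (F₀ + Fam k A D 1 x)
        (Fam k (fun i => -(fr β k i ^ 2) • A i) (fun i => -(fr β k i ^ 2) • D i) 1 x))
      + ∫ x in Icc (0 : V) 1, fderiv ℝ W (F₀ + Fam k A D 1 x)
        (Fam k (fun i => -(fr γ k i ^ 2) • A i) (fun i => -(fr γ k i ^ 2) • D i) 1 x) := by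
    rw [← integral_add (cT fun i => fr β k i ^ 2).integrableOn_Icc
      (cT fun i => fr γ k i ^ 2).integrableOn_Icc]
    refine integral_congr_ae (Eventually.of_forall fun x => ?_)
    simp only
    rw [← map_add]
    congr 1
    simp only [Fam_one]
    rw [← Finset.sum_add_distrib]
    refine Finset.sum_congr rfl fun i _ => ?_
    ext r l
    simp only [tm, lam, Pi.add_apply, Pi.smul_apply, smul_eq_mul]
    ring
  have cB : Continuous (fun x => B (Gβ x) (Gβ x) + B (Gγ x) (Gγ x) - R (N x) (N x)) :=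
    (((B.continuous.comp cGβ).clm_apply cGβ).add ((B.continuous.comp cGγ).clm_apply cGγ)).sub
      ((R.continuous.comp cN).clm_apply cN)
  have cB2 : Continuous (fun x => 2 * (B (Gβ x) (Gβ x) + B (Gγ x) (Gγ x) - R (N x) (N x))) :=
    continuous_const.mul cB
  have key : (∫ x in Icc (0 : V) 1,
        fderiv ℝ (fderiv ℝ W) (F₀ + Fam k A D 1 x) (Gβ x) (Gβ x))
      + (∫ x in Icc (0 : V) 1, fderiv ℝ (fderiv ℝ W) (F₀ + Fam k A D 1 x) (Gγ x) (Gγ x))
      = (∫ x in Icc (0 : V) 1, Phi h R β γ (P (F₀ + Fam k A D 1 x)) (N x))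
        + 2 * ∫ x in Icc (0 : V) 1,
          (B (Gβ x) (Gβ x) + B (Gγ x) (Gγ x) - R (N x) (N x)) := by
    rw [← integral_add cβ.integrableOn_Icc cγ.integrableOn_Icc, ← integral_const_mul,
      ← integral_add cPhi.integrableOn_Icc cB2.integrableOn_Icc]
    refine integral_congr_ae (Eventually.of_forall fun x => ?_)
    simp only
    rw [s2, s2, pβ, pγ, Phi]
    ring
  rw [hR] at key
  rw [hlam]
  linarith

theorem hasDerivAt_dg (β γ : V) (k : ι → Fin 2 → ℤ) (A D : ι → E) (t : ℝ) (x : V) :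
    HasDerivAt (fun t => Fam k (dg β γ k t A) (dg β γ k t D) 1 x)
      (Fam k (fun i => -(lam β γ k i) • dg β γ k t A i) (fun i => -(lam β γ k i) • dg β γ k t D i)
        1 x) t := by
  simp only [Fam_one]
  refine HasDerivAt.fun_sum fun i _ => ?_
  have h0 : HasDerivAt (fun t : ℝ => Real.exp (-(t * lam β γ k i)))
      (Real.exp (-(t * lam β γ k i)) * (-(1 * lam β γ k i))) t :=
    (((hasDerivAt_id t).mul_const (lam β γ k i)).neg).exp
  have h1 := (h0.smul_const (A i)).const_smul (Real.cos (ph (k i) x))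
  have h2 := (h0.smul_const (D i)).const_smul (Real.sin (ph (k i) x))
  refine (h1.add h2).congr_deriv ?_
  ext r l
  simp only [tm, dg, Pi.add_apply, Pi.smul_apply, smul_eq_mul]
  ring

omit [Fintype ι] in
theorem continuous_dg (β γ : V) (k : ι → Fin 2 → ℤ) (A : ι → E) (i : ι) :
    Continuous (fun t => dg β γ k t A i) := by
  unfold dg
  fun_prop

/-- the energy is smaller at time `T` -/
theorem flow_gen {h : V → ℝ} (hh : ContDiff ℝ 2 h) (P : E →L[ℝ] V) (B R : E →L[ℝ] E →L[ℝ] ℝ)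
    (β γ : V) (S : E → Prop) {ℓ : V → ℝ} (hℓ : Measurable ℓ)
    (hb : ∀ R : ℝ, ∃ C : ℝ, ∀ v : V, ‖v‖ ≤ R → |ℓ v| ≤ C)
    (hcond : ∀ (v : V) (N : E), S N → 0 ≤ Phi h R β γ v N + ℓ v * dt N)
    (F₀ : E) (k : ι → Fin 2 → ℤ) (A D : ι → E)
    (hS : ∀ t x, S (PG P k (dg β γ k t A) (dg β γ k t D) x))
    (hR : ∀ t, ∫ x in Icc (0 : V) 1,
      (B (Fam k (ml β k (dg β γ k t D)) (fun i => - ml β k (dg β γ k t A) i) 1 x)
          (Fam k (ml β k (dg β γ k t D)) (fun i => - ml β k (dg β γ k t A) i) 1 x)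
        + B (Fam k (ml γ k (dg β γ k t D)) (fun i => - ml γ k (dg β γ k t A) i) 1 x)
          (Fam k (ml γ k (dg β γ k t D)) (fun i => - ml γ k (dg β γ k t A) i) 1 x)
        - R (PG P k (dg β γ k t A) (dg β γ k t D) x)
            (PG P k (dg β γ k t A) (dg β γ k t D) x)) = 0)
    {T : ℝ} (hT : 0 ≤ T) :
    ∫ x in Icc (0 : V) 1, (fun F : E => h (P F) + B F F)
        (F₀ + Fam k (dg β γ k T A) (dg β γ k T D) 1 x)
      ≤ ∫ x in Icc (0 : V) 1, (fun F : E => h (P F) + B F F) (F₀ + Fam k A D 1 x) := by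
  set W : E → ℝ := fun F : E => h (P F) + B F F with hWdef
  have hW : ContDiff ℝ 2 W := contDiff_WL hh P B
  have hP1 : ContDiff ℝ 1 (fderiv ℝ W) := hW.fderiv_right (by norm_num)
  have h00 : ∀ (A : ι → E), dg β γ k 0 A = A := by
    intro A
    funext i
    simp [dg]
  have hFc : Continuous (fun p : ℝ × V =>
      F₀ + Fam k (dg β γ k p.1 A) (dg β γ k p.1 D) 1 p.2) :=
    continuous_const.add (continuous_Fam_coef k
      (fun i => (continuous_dg β γ k A i).comp continuous_fst)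
      (fun i => (continuous_dg β γ k D i).comp continuous_fst) continuous_snd)
  have hsm : ∀ (A : ι → E) (i : ι),
      Continuous (fun p : ℝ × V => -(lam β γ k i) • dg β γ k p.1 A i) := by
    intro A i
    exact ((continuous_dg β γ k A i).comp (continuous_fst (X := ℝ) (Y := V))).const_smul
      (-(lam β γ k i))
  have hGc : Continuous (fun p : ℝ × V =>
      Fam k (fun i => -(lam β γ k i) • dg β γ k p.1 A i)
        (fun i => -(lam β γ k i) • dg β γ k p.1 D i) 1 p.2) :=
    continuous_Fam_coef k (A := fun (p : ℝ × V) i => -(lam β γ k i) • dg β γ k p.1 A i)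
      (B := fun (p : ℝ × V) i => -(lam β γ k i) • dg β γ k p.1 D i)
      (hsm _) (hsm _) continuous_snd
  have h := fub (fun t x => W (F₀ + Fam k (dg β γ k t A) (dg β γ k t D) 1 x))
    (fun t x => fderiv ℝ W (F₀ + Fam k (dg β γ k t A) (dg β γ k t D) 1 x)
      (Fam k (fun i => -(lam β γ k i) • dg β γ k t A i)
        (fun i => -(lam β γ k i) • dg β γ k t D i) 1 x))
    (fun t x => ((hW.differentiable (by norm_num) _).hasFDerivAt).comp_hasDerivAt t
      ((hasDerivAt_dg β γ k A D t x).const_add F₀))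
    (hW.continuous.comp hFc) ((hP1.continuous.comp hFc).clm_apply hGc)
    (fun t => step_gen hh P B R β γ S hℓ hb hcond F₀ k _ _ (hS t) (hR t)) hT
  simpa only [h00] using h

theorem limit_gen {W : E → ℝ} (hW : Continuous W) (β γ : V)
    (F₀ : E) (k : ι → Fin 2 → ℤ) (A D : ι → E)
    (h0 : ∀ i, lam β γ k i = 0 → A i = 0 ∧ D i = 0) :
    Tendsto (fun n : ℕ => ∫ x in Icc (0 : V) 1,
      W (F₀ + Fam k (dg β γ k n A) (dg β γ k n D) 1 x)) atTop (𝓝 (W F₀)) := by
  have hl0 : ∀ i, 0 ≤ lam β γ k i := fun i => by unfold lam; positivity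
  have hle : ∀ (A : ι → E) (n : ℕ) (i : ι), ‖dg β γ k n A i‖ ≤ ‖A i‖ := by
    intro A n i
    unfold dg
    rw [norm_smul, Real.norm_eq_abs, abs_of_pos (Real.exp_pos _)]
    refine mul_le_of_le_one_left (norm_nonneg _) ?_
    rw [Real.exp_le_one_iff]
    have : 0 ≤ (n : ℝ) * lam β γ k i := mul_nonneg (Nat.cast_nonneg n) (hl0 i)
    linarith
  have hlim : ∀ (A : ι → E), (∀ i, lam β γ k i = 0 → A i = 0) → ∀ (i : ι),
      Tendsto (fun n : ℕ => dg β γ k n A i) atTop (𝓝 0) := by
    intro A hA i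
    unfold dg
    by_cases hfr : lam β γ k i = 0
    · simp [hfr, hA i hfr]
    · have hpos : 0 < lam β γ k i := lt_of_le_of_ne (hl0 i) (Ne.symm hfr)
      have h1 : Tendsto (fun n : ℕ => Real.exp (-((n : ℝ) * lam β γ k i))) atTop (𝓝 0) := by
        refine Real.tendsto_exp_neg_atTop_nhds_zero.comp ?_
        refine Tendsto.atTop_mul_const hpos ?_
        exact tendsto_natCast_atTop_atTop
      have h2 := h1.smul_const (A i)
      simpa using h2
  set C : ℝ := ∑ i, (‖A i‖ + ‖D i‖) with hC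
  have hAC : ∀ i, ‖A i‖ ≤ C := by
    intro i
    have := Finset.single_le_sum (f := fun i => ‖A i‖ + ‖D i‖) (fun j _ => by positivity)
      (Finset.mem_univ i)
    linarith [norm_nonneg (D i)]
  have hBC : ∀ i, ‖D i‖ ≤ C := by
    intro i
    have := Finset.single_le_sum (f := fun i => ‖A i‖ + ‖D i‖) (fun j _ => by positivity)
      (Finset.mem_univ i)
    linarith [norm_nonneg (A i)]
  have hbd : ∀ (n : ℕ) x, ‖F₀ + Fam k (dg β γ k n A) (dg β γ k n D) 1 x‖
      ≤ ‖F₀‖ + Fintype.card ι * (2 * C) := by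
    intro n x
    refine (norm_add_le _ _).trans (add_le_add le_rfl ?_)
    exact E_bdd k (fun i => (hle A n i).trans (hAC i)) (fun i => (hle D n i).trans (hBC i)) x
  obtain ⟨K, hK⟩ := (isCompact_closedBall (0 : E)
    (‖F₀‖ + Fintype.card ι * (2 * C))).exists_bound_of_continuousOn hW.continuousOn
  have hprob := volume_cube'
  have hc : ∫ _x in Icc (0 : V) 1, W F₀ = W F₀ := by simp
  rw [← hc]
  refine tendsto_integral_of_dominated_convergence (fun _ => K) (fun n => ?_) ?_ (fun n => ?_) ?_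
  · exact (hW.comp (continuous_const.add (continuous_Fam k _ _ 1))).aestronglyMeasurable
  · exact continuous_const.integrableOn_Icc
  · refine Eventually.of_forall fun x => ?_
    refine hK _ ?_
    rw [mem_closedBall_zero_iff]
    exact hbd n x
  · refine Eventually.of_forall fun x => ?_
    refine (hW.tendsto _).comp ?_
    have : Tendsto (fun n : ℕ => F₀ + Fam k (dg β γ k n A) (dg β γ k n D) 1 x) atTop
        (𝓝 (F₀ + 0)) := by
      refine Tendsto.const_add F₀ ?_
      simp only [Fam_one]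
      have e0 : (0 : E) = ∑ i : ι, (0 : E) := by simp
      rw [e0]
      refine tendsto_finsetSum _ fun i _ => ?_
      unfold tm
      have a1 := (hlim A (fun i hi => (h0 i hi).1) i).const_smul (Real.cos (ph (k i) x))
      have a2 := (hlim D (fun i hi => (h0 i hi).2) i).const_smul (Real.sin (ph (k i) x))
      simpa using a1.add a2
    simpa using this

end Run7.h521.MQ
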