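import Pool.Agent.Run7.h521.MQ.SelG

/-!
# The general theorem for trigonometric polynomials
-/

set_option autoImplicit false

open MeasureTheory Set Filter Topology

namespace Run7.h521.MQ

open Pool.Agent.W779.Morrey Pool.Agent.N555.MQ

/-- the derivatives of `P (c ⊗ κ)` -/
noncomputable def zt (P : E →L[ℝ] V) (κ c : V) : E := fun m => κ m • P (tens c κ)

/-- the frequency as a real vector -/
def rv (k : Fin 2 → ℤ) : V := fun l => (k l : ℝ)

/-- a symmetric combination in the direction `β` -/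
def dvE (β : V) (X : Fin 2 → E) : E := β 0 • X 0 + β 1 • X 1

/-- the bilinear form on second derivatives -/
noncomputable def Q2 (P : E →L[ℝ] V) (B R : E →L[ℝ] E →L[ℝ] ℝ) (β γ : V) :
    (Fin 2 → E) →ₗ[ℝ] (Fin 2 → E) →ₗ[ℝ] ℝ :=
  LinearMap.mk₂ ℝ (fun X X' => B (dvE β X) (dvE β X') + B (dvE γ X) (dvE γ X')
      - R (fun m => P (X m)) (fun m => P (X' m)))
    (by
      intro X Y X'
      have e1 : ∀ β : V, dvE β (X + Y) = dvE β X + dvE β Y := fun β => by
        simp only [dvE, Pi.add_apply, smul_add]; abel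
      have e2 : (fun m => P ((X + Y) m)) = (fun m => P (X m)) + fun m => P (Y m) := by
        funext m; simp
      simp only [e1, e2, map_add, _root_.add_apply]; ring)
    (by
      intro s X X'
      have e1 : ∀ β : V, dvE β (s • X) = s • dvE β X := fun β => by
        simp only [dvE, Pi.smul_apply, smul_add, smul_comm s]
      have e2 : (fun m => P ((s • X) m)) = s • (fun m => P (X m)) := by
        funext m; simp
      rw [e1, e1, e2]
      simp only [map_smul, FunLike.coe_smul, Pi.smul_apply, smul_eq_mul]; ring)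
    (by
      intro X Y X'
      have e1 : ∀ β : V, dvE β (Y + X') = dvE β Y + dvE β X' := fun β => by
        simp only [dvE, Pi.add_apply, smul_add]; abel
      have e2 : (fun m => P ((Y + X') m)) = (fun m => P (Y m)) + fun m => P (X' m) := by
        funext m; simp
      simp only [e1, e2, map_add]; ring)
    (by
      intro s X X'
      have e1 : ∀ β : V, dvE β (s • X') = s • dvE β X' := fun β => by
        simp only [dvE, Pi.smul_apply, smul_add, smul_comm s]
      have e2 : (fun m => P ((s • X') m)) = s • (fun m => P (X' m)) := by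
        funext m; simp
      simp only [e1, e2, map_smul, smul_eq_mul]; ring)

theorem Q2_apply (P : E →L[ℝ] V) (B R : E →L[ℝ] E →L[ℝ] ℝ) (β γ : V) (X X' : Fin 2 → E) :
    Q2 P B R β γ X X' = B (dvE β X) (dvE β X') + B (dvE γ X) (dvE γ X')
      - R (fun m => P (X m)) (fun m => P (X' m)) := rfl

/-- the scalar product with the frequency -/
def ip (β κ : V) : ℝ := κ 0 * β 0 + κ 1 * β 1

/-- the value of the form on the second derivatives of a wave -/
noncomputable def QZ (P : E →L[ℝ] V) (B R : E →L[ℝ] E →L[ℝ] ℝ) (β γ κ c c' : V) : ℝ :=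
  (ip β κ ^ 2 + ip γ κ ^ 2) * B (tens c κ) (tens c' κ) - R (zt P κ c) (zt P κ c')

/-- the second derivatives of a wave -/
def wv (κ c : V) : Fin 2 → E := fun m => κ m • tens c κ

theorem wv_neg (κ c : V) : wv (-κ) c = wv κ c := by
  funext m
  ext r l
  simp [wv, tens]

theorem Q2_wv (P : E →L[ℝ] V) (B R : E →L[ℝ] E →L[ℝ] ℝ) (β γ κ c c' : V) :
    Q2 P B R β γ (wv κ c) (wv κ c') = QZ P B R β γ κ c c' := by
  have e1 : ∀ (β c : V), dvE β (wv κ c) = ip β κ • tens c κ := fun β c => by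
    ext r l
    simp only [dvE, wv, ip, Pi.add_apply, Pi.smul_apply, smul_eq_mul]; ring
  have e2 : ∀ c : V, (fun m => P (wv κ c m)) = zt P κ c := fun c => by
    funext m
    simp only [wv, zt, map_smul]
  rw [Q2_apply, e1, e1, e1, e1, e2, e2, QZ]
  simp only [map_smul, FunLike.coe_smul, Pi.smul_apply, smul_eq_mul]
  ring

variable {ι : Type*} [Fintype ι]

theorem rv_neg (k : Fin 2 → ℤ) : rv (-k) = - rv k := by
  funext l; simp [rv]

theorem TS_pi {n : Type*} {M : Type*} [AddCommGroup M] [Module ℝ M] (k : ι → Fin 2 → ℤ)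
    (X Y : ι → n → M) (x : V) (m : n) : TS k X Y x m = TS k (fun i => X i m) (fun i => Y i m) x := by
  simp [TS, Finset.sum_apply]

/-- the second derivatives of the flow -/
theorem second_TS (β γ : V) (k : ι → Fin 2 → ℤ) (c d : ι → V) (t : ℝ) (x : V) (m : Fin 2) :
    Fam k (dA k (dg β γ k t (grk k d)) m) (dB k (dg β γ k t (grk k c)) m) 1 x
      = TS k (fun i => (2 * Real.pi * Real.exp (-(t * lam β γ k i))) • wv (rv (k i)) (d i))
        (fun i => (-(2 * Real.pi * Real.exp (-(t * lam β γ k i)))) • wv (rv (k i)) (c i)) x m := by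
  rw [TS_pi, Fam_eq_TS]
  unfold TS
  refine Finset.sum_congr rfl fun i _ => ?_
  ext r l
  simp only [dA, dB, dg, grk, wv, rv, tens, Pi.add_apply, Pi.smul_apply, Pi.neg_apply, smul_eq_mul]
  ring

/-- the integral of the form vanishes along the flow -/
theorem hR_of (P : E →L[ℝ] V) (B R : E →L[ℝ] E →L[ℝ] ℝ) (β γ : V) (Sl : V → V → Prop)
    (hneg : ∀ κ c, Sl (-κ) c → Sl κ c)
    (hZ : ∀ κ c c', Sl κ c → Sl κ c' → QZ P B R β γ κ c c' = 0)
    (k : ι → Fin 2 → ℤ) (c d : ι → V) (hc : ∀ i, Sl (rv (k i)) (c i))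
    (hd : ∀ i, Sl (rv (k i)) (d i)) (t : ℝ) :
    ∫ x in Icc (0 : V) 1,
      (B (Fam k (ml β k (dg β γ k t (grk k d))) (fun i => - ml β k (dg β γ k t (grk k c)) i) 1 x)
          (Fam k (ml β k (dg β γ k t (grk k d))) (fun i => - ml β k (dg β γ k t (grk k c)) i) 1 x)
        + B (Fam k (ml γ k (dg β γ k t (grk k d))) (fun i => - ml γ k (dg β γ k t (grk k c)) i) 1 x)
          (Fam k (ml γ k (dg β γ k t (grk k d))) (fun i => - ml γ k (dg β γ k t (grk k c)) i) 1 x)
        - R (PG P k (dg β γ k t (grk k c)) (dg β γ k t (grk k d)) x)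
            (PG P k (dg β γ k t (grk k c)) (dg β γ k t (grk k d)) x)) = 0 := by
  set X : ι → Fin 2 → E := fun i =>
    (2 * Real.pi * Real.exp (-(t * lam β γ k i))) • wv (rv (k i)) (d i) with hX
  set Y : ι → Fin 2 → E := fun i =>
    (-(2 * Real.pi * Real.exp (-(t * lam β γ k i)))) • wv (rv (k i)) (c i) with hY
  have hz : ∀ i j, (k i = k j ∨ k i = - k j) → ∀ a b : V, Sl (rv (k i)) a → Sl (rv (k j)) b →
      Q2 P B R β γ (wv (rv (k i)) a) (wv (rv (k j)) b) = 0 := by
    intro i j hij a b ha hb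
    rcases hij with h | h
    · rw [← h] at hb ⊢
      rw [Q2_wv]
      exact hZ _ _ _ ha hb
    · rw [h, rv_neg, wv_neg, Q2_wv]
      rw [h, rv_neg] at ha
      exact hZ _ _ _ (hneg _ _ ha) hb
  have h := orth (Q2 P B R β γ) k X Y X Y (fun i j hij => by
    simp only [hX, hY, map_smul, LinearMap.smul_apply, hz i j hij _ _ (hd i) (hd j),
      hz i j hij _ _ (hd i) (hc j), hz i j hij _ _ (hc i) (hd j), hz i j hij _ _ (hc i) (hc j),
      smul_zero, and_self])
  rw [← h]
  refine integral_congr_ae (Eventually.of_forall fun x => ?_)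
  simp only
  rw [Q2_apply, ← dir_Fam, ← dir_Fam]
  simp only [second_TS β γ k c d t x, ← hX, ← hY]
  have e : PG P k (dg β γ k t (grk k c)) (dg β γ k t (grk k d)) x
      = fun m => P (TS k X Y x m) := by
    funext m
    rw [PG, second_TS β γ k c d t x m]
  rw [e]
  rfl

theorem PG_mem (P : E →L[ℝ] V) (β γ : V) (S : Submodule ℝ E)
    (hS : ∀ κ c : V, zt P κ c ∈ S) (k : ι → Fin 2 → ℤ) (c d : ι → V) (t : ℝ) (x : V) :
    PG P k (dg β γ k t (grk k c)) (dg β γ k t (grk k d)) x ∈ S := by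
  have e : PG P k (dg β γ k t (grk k c)) (dg β γ k t (grk k d)) x
      = ∑ i, ((Real.cos (ph (k i) x) * (2 * Real.pi * Real.exp (-(t * lam β γ k i))))
            • zt P (rv (k i)) (d i)
          + (Real.sin (ph (k i) x) * (-(2 * Real.pi * Real.exp (-(t * lam β γ k i)))))
            • zt P (rv (k i)) (c i)) := by
    funext m
    rw [PG, second_TS β γ k c d t x m, TS_pi, TS, map_sum, Finset.sum_apply]
    refine Finset.sum_congr rfl fun i _ => ?_
    simp only [wv, zt, Pi.smul_apply, map_add, map_smul, Pi.add_apply]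
    module
  rw [e]
  exact S.sum_mem fun i _ => S.add_mem (S.smul_mem _ (hS _ _)) (S.smul_mem _ (hS _ _))

/-- **The general theorem for smooth `h`.** -/
theorem trig_gen {h : V → ℝ} (hh : ContDiff ℝ 2 h) (P : E →L[ℝ] V) (B R : E →L[ℝ] E →L[ℝ] ℝ)
    (β γ : V) (hpos : ∀ κ : V, ip β κ = 0 → ip γ κ = 0 → κ = 0)
    (S : Submodule ℝ E) (h0 : H0 ∈ S) (k0 : K0 ∈ S) (hS : ∀ κ c : V, zt P κ c ∈ S)
    (hp : ∀ (v : V) (N : E), N ∈ S → dt N = 0 → 0 ≤ Phi h R β γ v N)
    (Sl : V → V → Prop) (hneg : ∀ κ c, Sl (-κ) c → Sl κ c)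
    (hZ : ∀ κ c c', Sl κ c → Sl κ c' → QZ P B R β γ κ c c' = 0)
    (F₀ : E) (k : ι → Fin 2 → ℤ) (c d : ι → V) (hc : ∀ i, Sl (rv (k i)) (c i))
    (hd : ∀ i, Sl (rv (k i)) (d i)) :
    h (P F₀) + B F₀ F₀ ≤ ∫ x in Icc (0 : V) 1, (fun F : E => h (P F) + B F F)
      (F₀ + Fam k (grk k c) (grk k d) 1 x) := by
  obtain ⟨ℓ, hℓ, hb, hcond⟩ := sel_gen hh R β γ S h0 k0 hp
  have hk0 : ∀ i, lam β γ k i = 0 → ∀ e : ι → V, grk k e i = 0 := by
    intro i hi e
    unfold lam at hi
    have a1 : fr β k i = 0 := by nlinarith [sq_nonneg (fr β k i), sq_nonneg (fr γ k i)]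
    have a2 : fr γ k i = 0 := by nlinarith [sq_nonneg (fr β k i), sq_nonneg (fr γ k i)]
    have hpi := Real.pi_pos
    unfold fr at a1 a2
    have b1 : ip β (rv (k i)) = 0 := by
      unfold ip rv
      rcases mul_eq_zero.1 a1 with h | h
      · linarith
      · exact h
    have b2 : ip γ (rv (k i)) = 0 := by
      unfold ip rv
      rcases mul_eq_zero.1 a2 with h | h
      · linarith
      · exact h
    have hz := hpos _ b1 b2
    ext r l
    have := congrFun hz l
    simp only [rv, Pi.zero_apply] at this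
    simp [grk, this]
  have h2 := limit_gen (contDiff_WL hh P B).continuous β γ F₀ k (grk k c) (grk k d)
    (fun i hi => ⟨hk0 i hi c, hk0 i hi d⟩)
  refine le_of_tendsto h2 (Eventually.of_forall fun n => ?_)
  exact flow_gen hh P B R β γ (fun N => N ∈ S) hℓ hb hcond F₀ k (grk k c) (grk k d)
    (fun t x => PG_mem P β γ S hS k c d t x)
    (fun t => hR_of P B R β γ Sl hneg hZ k c d hc hd t) (Nat.cast_nonneg n)

end Run7.h521.MQ
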