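import Pool.Agent.N555.MQ.Fin2

/-!
# Bilinear integrals of trigonometric polynomials
-/

set_option autoImplicit false

open MeasureTheory Set Filter Topology

namespace Run7.h521.MQ

open Pool.Agent.W779.Morrey Pool.Agent.N555.MQ

theorem ph_sub (k l : Fin 2 → ℤ) (x : V) : ph (k - l) x = ph k x - ph l x := by
  simp only [ph, Pi.sub_apply, Int.cast_sub]; ring

theorem ph_add (k l : Fin 2 → ℤ) (x : V) : ph (k + l) x = ph k x + ph l x := by
  simp only [ph, Pi.add_apply, Int.cast_add]; ring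

theorem ccont (k : Fin 2 → ℤ) : Continuous (fun x : V => Real.cos (ph k x)) :=
  Real.continuous_cos.comp (continuous_ph k)

theorem scont (k : Fin 2 → ℤ) : Continuous (fun x : V => Real.sin (ph k x)) :=
  Real.continuous_sin.comp (continuous_ph k)

theorem int_cc {k l : Fin 2 → ℤ} (h1 : k ≠ l) (h2 : k ≠ -l) :
    ∫ x in Icc (0 : V) 1, Real.cos (ph k x) * Real.cos (ph l x) = 0 := by
  have a1 := (integral_cos_sin (sub_ne_zero.2 h1)).1
  have a2 := (integral_cos_sin (k := k + l) (fun h => h2 (eq_neg_of_add_eq_zero_left h))).1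
  have e : ∀ x, Real.cos (ph k x) * Real.cos (ph l x)
      = (1 / 2) * (Real.cos (ph (k - l) x) + Real.cos (ph (k + l) x)) := by
    intro x
    rw [ph_sub, ph_add, Real.cos_sub, Real.cos_add]; ring
  simp only [e]
  rw [integral_const_mul, integral_add (ccont _).integrableOn_Icc (ccont _).integrableOn_Icc, a1, a2]
  simp

theorem int_ss {k l : Fin 2 → ℤ} (h1 : k ≠ l) (h2 : k ≠ -l) :
    ∫ x in Icc (0 : V) 1, Real.sin (ph k x) * Real.sin (ph l x) = 0 := by
  have a1 := (integral_cos_sin (sub_ne_zero.2 h1)).1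
  have a2 := (integral_cos_sin (k := k + l) (fun h => h2 (eq_neg_of_add_eq_zero_left h))).1
  have e : ∀ x, Real.sin (ph k x) * Real.sin (ph l x)
      = (1 / 2) * (Real.cos (ph (k - l) x) - Real.cos (ph (k + l) x)) := by
    intro x
    rw [ph_sub, ph_add, Real.cos_sub, Real.cos_add]; ring
  simp only [e]
  rw [integral_const_mul, integral_sub (ccont _).integrableOn_Icc (ccont _).integrableOn_Icc, a1, a2]
  simp

theorem int_sc {k l : Fin 2 → ℤ} (h1 : k ≠ l) (h2 : k ≠ -l) :
    ∫ x in Icc (0 : V) 1, Real.sin (ph k x) * Real.cos (ph l x) = 0 := by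
  have a1 := (integral_cos_sin (sub_ne_zero.2 h1)).2
  have a2 := (integral_cos_sin (k := k + l) (fun h => h2 (eq_neg_of_add_eq_zero_left h))).2
  have e : ∀ x, Real.sin (ph k x) * Real.cos (ph l x)
      = (1 / 2) * (Real.sin (ph (k - l) x) + Real.sin (ph (k + l) x)) := by
    intro x
    rw [ph_sub, ph_add, Real.sin_sub, Real.sin_add]; ring
  simp only [e]
  rw [integral_const_mul, integral_add (scont _).integrableOn_Icc (scont _).integrableOn_Icc, a1, a2]
  simp

theorem int_cs {k l : Fin 2 → ℤ} (h1 : k ≠ l) (h2 : k ≠ -l) :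
    ∫ x in Icc (0 : V) 1, Real.cos (ph k x) * Real.sin (ph l x) = 0 := by
  have h := int_sc (k := l) (l := k) h1.symm (fun h => h2 (by rw [h, neg_neg]))
  rw [← h]
  refine integral_congr_ae (Eventually.of_forall fun x => ?_)
  ring

theorem int4 {f1 f2 f3 f4 : V → ℝ} (h1 : Continuous f1) (h2 : Continuous f2)
    (h3 : Continuous f3) (h4 : Continuous f4) :
    ∫ x in Icc (0 : V) 1, (f1 x + f2 x + f3 x + f4 x)
      = (∫ x in Icc (0 : V) 1, f1 x) + (∫ x in Icc (0 : V) 1, f2 x)
        + (∫ x in Icc (0 : V) 1, f3 x) + ∫ x in Icc (0 : V) 1, f4 x := by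
  have i12 : IntegrableOn (fun x => f1 x + f2 x) (Icc (0 : V) 1) := (h1.add h2).integrableOn_Icc
  have i123 : IntegrableOn (fun x => f1 x + f2 x + f3 x) (Icc (0 : V) 1) :=
    ((h1.add h2).add h3).integrableOn_Icc
  rw [integral_add i123 h4.integrableOn_Icc, integral_add i12 h3.integrableOn_Icc,
    integral_add h1.integrableOn_Icc h2.integrableOn_Icc]

section ts

variable {ι : Type*} [Fintype ι]

/-- a trigonometric polynomial with values in a module -/
noncomputable def TS {M : Type*} [AddCommGroup M] [Module ℝ M] (k : ι → Fin 2 → ℤ) (X Y : ι → M)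
    (x : V) : M :=
  ∑ i, (Real.cos (ph (k i) x) • X i + Real.sin (ph (k i) x) • Y i)

theorem Fam_eq_TS (k : ι → Fin 2 → ℤ) (A B : ι → E) (x : V) : Fam k A B 1 x = TS k A B x := by
  rw [Fam_one]; rfl

/-- products of trigonometric polynomials with integral zero -/
theorem orth {M M' : Type*} [AddCommGroup M] [Module ℝ M] [AddCommGroup M'] [Module ℝ M']
    (Q : M →ₗ[ℝ] M' →ₗ[ℝ] ℝ) (k : ι → Fin 2 → ℤ) (X Y : ι → M) (X' Y' : ι → M')
    (h : ∀ i j, (k i = k j ∨ k i = - k j) →
      Q (X i) (X' j) = 0 ∧ Q (X i) (Y' j) = 0 ∧ Q (Y i) (X' j) = 0 ∧ Q (Y i) (Y' j) = 0) :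
    ∫ x in Icc (0 : V) 1, Q (TS k X Y x) (TS k X' Y' x) = 0 := by
  have e : ∀ x, Q (TS k X Y x) (TS k X' Y' x) = ∑ i, ∑ j,
      ((Real.cos (ph (k i) x) * Real.cos (ph (k j) x)) * Q (X i) (X' j)
      + (Real.cos (ph (k i) x) * Real.sin (ph (k j) x)) * Q (X i) (Y' j)
      + (Real.sin (ph (k i) x) * Real.cos (ph (k j) x)) * Q (Y i) (X' j)
      + (Real.sin (ph (k i) x) * Real.sin (ph (k j) x)) * Q (Y i) (Y' j)) := by
    intro x
    unfold TS
    rw [LinearMap.map_sum₂]
    refine Finset.sum_congr rfl fun i _ => ?_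
    rw [map_sum]
    refine Finset.sum_congr rfl fun j _ => ?_
    simp only [map_add, map_smul, LinearMap.add_apply, LinearMap.smul_apply, smul_eq_mul]
    ring
  simp only [e]
  have c1 : ∀ i j, Continuous (fun x : V =>
      (Real.cos (ph (k i) x) * Real.cos (ph (k j) x)) * Q (X i) (X' j)) := fun i j =>
    ((ccont _).mul (ccont _)).mul continuous_const
  have c2 : ∀ i j, Continuous (fun x : V =>
      (Real.cos (ph (k i) x) * Real.sin (ph (k j) x)) * Q (X i) (Y' j)) := fun i j =>
    ((ccont _).mul (scont _)).mul continuous_const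
  have c3 : ∀ i j, Continuous (fun x : V =>
      (Real.sin (ph (k i) x) * Real.cos (ph (k j) x)) * Q (Y i) (X' j)) := fun i j =>
    ((scont _).mul (ccont _)).mul continuous_const
  have c4 : ∀ i j, Continuous (fun x : V =>
      (Real.sin (ph (k i) x) * Real.sin (ph (k j) x)) * Q (Y i) (Y' j)) := fun i j =>
    ((scont _).mul (scont _)).mul continuous_const
  rw [integral_finsetSum]
  · refine Finset.sum_eq_zero fun i _ => ?_
    rw [integral_finsetSum]
    · refine Finset.sum_eq_zero fun j _ => ?_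
      by_cases hk : k i = k j ∨ k i = - k j
      · obtain ⟨h1, h2, h3, h4⟩ := h i j hk
        simp [h1, h2, h3, h4]
      · push Not at hk
        rw [int4 (c1 i j) (c2 i j) (c3 i j) (c4 i j), integral_mul_const, integral_mul_const, integral_mul_const, integral_mul_const,
          int_cc hk.1 hk.2, int_cs hk.1 hk.2, int_sc hk.1 hk.2, int_ss hk.1 hk.2]
        simp
    · intro j _
      exact ((((c1 i j).add (c2 i j)).add (c3 i j)).add (c4 i j)).integrableOn_Icc
  · intro i _
    exact (continuous_finsetSum _ fun j _ =>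
      (((c1 i j).add (c2 i j)).add (c3 i j)).add (c4 i j)).integrableOn_Icc

end ts

end Run7.h521.MQ
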