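import Pool.Agent.Run7.h521.MQ.Common

/-!
# Functions of one row plus a quadratic form
-/

set_option autoImplicit false

open MeasureTheory Set Filter Topology

namespace Run7.h521.MQ

open Pool.Agent.W779.Morrey Pool.Agent.N555.MQ

/-- the first row -/
noncomputable def rowL : E →L[ℝ] V := ContinuousLinearMap.proj (R := ℝ) (φ := fun _ : Fin 2 => V) 0

theorem rowL_apply (F : E) : rowL F = F 0 := rfl

/-- a matrix with given first row -/
noncomputable def upL : V →L[ℝ] E :=
  LinearMap.toContinuousLinearMap (E := V) (F' := E)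
    { toFun := fun w => ![w, 0]
      map_add' := by intro v w; ext r l; fin_cases r <;> simp
      map_smul' := by intro s w; ext r l; fin_cases r <;> simp }

/-- a matrix with given second row -/
noncomputable def dnL : V →L[ℝ] E :=
  LinearMap.toContinuousLinearMap (E := V) (F' := E)
    { toFun := fun w => ![0, w]
      map_add' := by intro v w; ext r l; fin_cases r <;> simp
      map_smul' := by intro s w; ext r l; fin_cases r <;> simp }

theorem upL_apply (w : V) : upL w = ![w, 0] := rfl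
theorem dnL_apply (w : V) : dnL w = ![0, w] := rfl

theorem row_up (w : V) : rowL (upL w) = w := rfl
theorem row_dn (w : V) : rowL (dnL w) = 0 := rfl

theorem up_add_dn (F : E) : upL (F 0) + dnL (F 1) = F := by
  ext r l; fin_cases r <;> simp [upL_apply, dnL_apply]

theorem tens_eq (c κ : V) : tens c κ = c 0 • upL κ + c 1 • dnL κ := by
  ext r l; fin_cases r <;> simp [upL_apply, dnL_apply, tens]

theorem dt_comb (a b : ℝ) (κ : V) : dt (a • upL κ + b • dnL κ) = 0 := by
  have : a • upL κ + b • dnL κ = tens ![a, b] κ := by rw [tens_eq]; simp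
  rw [this]
  simp only [dt, tens]; ring

/-- the quadratic forms of the symbol -/
noncomputable def brr (B : E →L[ℝ] E →L[ℝ] ℝ) (κ : V) : ℝ := B (upL κ) (upL κ)
noncomputable def brs (B : E →L[ℝ] E →L[ℝ] ℝ) (κ : V) : ℝ := B (upL κ) (dnL κ)
noncomputable def bss (B : E →L[ℝ] E →L[ℝ] ℝ) (κ : V) : ℝ := B (dnL κ) (dnL κ)

/-- the unit vectors -/
def e0 : V := Pi.single 0 1
def e1 : V := Pi.single 1 1

theorem vec_eq (κ : V) : κ = κ 0 • e0 + κ 1 • e1 := by
  ext j; fin_cases j <;> simp [e0, e1]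

/-- the contraction of a matrix with a bilinear form on vectors -/
noncomputable def ctr (B : E →L[ℝ] E →L[ℝ] ℝ) (p q : V →L[ℝ] E) : E →L[ℝ] ℝ :=
  (B (p e0)).comp (q.comp (ContinuousLinearMap.proj (R := ℝ) (φ := fun _ : Fin 2 => V) 0))
    + (B (p e1)).comp (q.comp (ContinuousLinearMap.proj (R := ℝ) (φ := fun _ : Fin 2 => V) 1))

theorem ctr_apply (B : E →L[ℝ] E →L[ℝ] ℝ) (p q : V →L[ℝ] E) (N : E) :
    ctr B p q N = B (p e0) (q (N 0)) + B (p e1) (q (N 1)) := rfl

theorem ctr_tens (B : E →L[ℝ] E →L[ℝ] ℝ) (p q : V →L[ℝ] E) (s : ℝ) (κ : V) :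
    ctr B p q (fun m => κ m • (s • κ)) = s * B (p κ) (q κ) := by
  rw [ctr_apply]
  conv_rhs => rw [vec_eq κ]
  simp only [map_smul, map_add, smul_eq_mul, _root_.add_apply, FunLike.coe_smul, Pi.smul_apply]
  have h : ∀ x : V, B (p x) (q κ) = κ 0 * B (p x) (q e0) + κ 1 * B (p x) (q e1) := by
    intro x
    conv_lhs => rw [vec_eq κ]
    simp only [map_smul, map_add, smul_eq_mul]
  rw [h, h]
  ring

/-- the quadratic form of the dissipation -/
noncomputable def RR (B : E →L[ℝ] E →L[ℝ] ℝ) : E →L[ℝ] E →L[ℝ] ℝ :=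
  (ctr B upL upL).smulRight (ctr B dnL dnL) - (ctr B upL dnL).smulRight (ctr B upL dnL)

theorem RR_apply (B : E →L[ℝ] E →L[ℝ] ℝ) (N N' : E) :
    RR B N N' = ctr B upL upL N * ctr B dnL dnL N' - ctr B upL dnL N * ctr B upL dnL N' := by
  simp [RR]

/-- the symmetric matrices -/
def Sym : Submodule ℝ E where
  carrier := {N | N 0 1 = N 1 0}
  add_mem' := by
    intro a b ha hb
    simp only [mem_ofPred_eq, Pi.add_apply] at *
    rw [ha, hb]
  zero_mem' := rfl
  smul_mem' := by
    intro s a ha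
    simp only [mem_ofPred_eq, Pi.smul_apply] at *
    rw [ha]

theorem mem_Sym (N : E) : N ∈ Sym ↔ N 0 1 = N 1 0 := Iff.rfl

/-- the relation between the two amplitudes -/
def Sl (B : E →L[ℝ] E →L[ℝ] ℝ) (κ c : V) : Prop := bss B κ * c 1 = -(brs B κ * c 0)

theorem zt_row (κ c : V) : zt rowL κ c = fun m => κ m • (c 0 • κ) := by
  funext m
  rfl

theorem sym_sing {N : E} (hS : N ∈ Sym) (h : dt N = 0) :
    ∃ (τ : ℝ) (κ : V), N = fun m => κ m • (τ • κ) := by
  rw [mem_Sym] at hS
  unfold dt at h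
  by_cases h0 : N 0 0 = 0
  · have h1 : N 0 1 = 0 := by
      have : N 0 1 * N 0 1 = 0 := by rw [h0, ← hS] at h; linarith
      exact mul_self_eq_zero.1 this
    refine ⟨N 1 1, e1, ?_⟩
    ext r l
    fin_cases r <;> fin_cases l <;> simp [e1, h0, h1, ← hS]
  · refine ⟨1 / N 0 0, N 0, ?_⟩
    ext r l
    simp only [Pi.smul_apply, smul_eq_mul]
    fin_cases r <;> fin_cases l
    · change N 0 0 = N 0 0 * (1 / N 0 0 * N 0 0)
      field_simp
    · change N 0 1 = N 0 0 * (1 / N 0 0 * N 0 1)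
      field_simp
    · change N 1 0 = N 0 1 * (1 / N 0 0 * N 0 0)
      field_simp
      exact hS.symm
    · change N 1 1 = N 0 1 * (1 / N 0 0 * N 0 1)
      field_simp
      rw [← hS] at h
      linarith

theorem bss_neg (B : E →L[ℝ] E →L[ℝ] ℝ) (κ : V) : bss B (-κ) = bss B κ := by
  simp [bss]

theorem brs_neg (B : E →L[ℝ] E →L[ℝ] ℝ) (κ : V) : brs B (-κ) = brs B κ := by
  simp [brs]

/-- Cholesky decomposition -/
theorem chol (B : E →L[ℝ] E →L[ℝ] ℝ) (hsym : ∀ F G, B F G = B G F)
    (hpos : ∀ κ : V, κ ≠ 0 → 0 < bss B κ) :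
    ∃ β γ : V, (∀ κ : V, ip β κ ^ 2 + ip γ κ ^ 2 = bss B κ) ∧
      ∀ κ : V, ip β κ = 0 → ip γ κ = 0 → κ = 0 := by
  set p := B (dnL e0) (dnL e0) with hp
  set q := B (dnL e0) (dnL e1) with hq
  set r := B (dnL e1) (dnL e1) with hr
  have hexp : ∀ κ : V, bss B κ = p * κ 0 ^ 2 + 2 * q * κ 0 * κ 1 + r * κ 1 ^ 2 := by
    intro κ
    unfold bss
    conv_lhs => rw [vec_eq κ]
    simp only [map_smul, map_add, smul_eq_mul, _root_.add_apply, FunLike.coe_smul, Pi.smul_apply]
    rw [hsym (dnL e1) (dnL e0), ← hp, ← hq, ← hr]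
    ring
  have hp0 : 0 < p := by
    have h := hpos e0 (fun h => by simpa [e0] using congrFun h 0)
    simpa [bss] using h
  have hd : 0 < r - q ^ 2 / p := by
    have h := hpos ![-q, p] (fun h => by
      have := congrFun h 1
      simp at this
      exact hp0.ne' this)
    rw [hexp] at h
    simp only [Matrix.cons_val_zero, Matrix.cons_val_one] at h
    have e : p * (-q) ^ 2 + 2 * q * -q * p + r * p ^ 2 = p ^ 2 * (r - q ^ 2 / p) := by
      field_simp
      ring
    rw [e] at h
    exact pos_of_mul_pos_right h (by positivity)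
  set s := Real.sqrt p with hs
  have hs2 : s ^ 2 = p := Real.sq_sqrt hp0.le
  have hs0 : 0 < s := Real.sqrt_pos.2 hp0
  set u := Real.sqrt (r - q ^ 2 / p) with hu
  have hu2 : u ^ 2 = r - q ^ 2 / p := Real.sq_sqrt hd.le
  have hu0 : 0 < u := Real.sqrt_pos.2 hd
  refine ⟨![s, q / s], ![0, u], fun κ => ?_, fun κ h1 h2 => ?_⟩
  · rw [hexp]
    simp only [ip, Matrix.cons_val_zero, Matrix.cons_val_one]
    have e1 : (κ 0 * s + κ 1 * (q / s)) ^ 2 = κ 0 ^ 2 * s ^ 2 + 2 * q * κ 0 * κ 1
        + κ 1 ^ 2 * (q ^ 2 / s ^ 2) := by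
      field_simp
      ring
    have e2 : (κ 0 * 0 + κ 1 * u) ^ 2 = κ 1 ^ 2 * u ^ 2 := by ring
    rw [e1, e2, hs2, hu2]
    ring
  · simp only [ip, Matrix.cons_val_zero, Matrix.cons_val_one] at h1 h2
    have k1 : κ 1 = 0 := by
      rcases mul_eq_zero.1 (show κ 1 * u = 0 by linarith) with h | h
      · exact h
      · exact absurd h hu0.ne'
    rw [k1] at h1
    have k0 : κ 0 = 0 := by
      rcases mul_eq_zero.1 (show κ 0 * s = 0 by linarith) with h | h
      · exact h
      · exact absurd h hs0.ne'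
    ext j; fin_cases j
    · exact k0
    · exact k1

/-- the form in the symmetric singular directions -/
theorem phi_row {h : V → ℝ} (B : E →L[ℝ] E →L[ℝ] ℝ) (hsym : ∀ F G, B F G = B G F)
    (hpos : ∀ κ : V, κ ≠ 0 → 0 < bss B κ) (β γ : V)
    (hβγ : ∀ κ : V, ip β κ ^ 2 + ip γ κ ^ 2 = bss B κ) (v : V)
    (hs : ∀ H : E, dt H = 0 → 0 ≤ fderiv ℝ (fderiv ℝ h) v (rowL H) (rowL H) + 2 * B H H)
    (N : E) (hN : N ∈ Sym) (hd : dt N = 0) : 0 ≤ Phi h (RR B) β γ v N := by
  obtain ⟨τ, κ, rfl⟩ := sym_sing hN hd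
  have hdv : ∀ β : V, dv β (fun m => κ m • (τ • κ)) = (τ * ip β κ) • κ := by
    intro β
    ext l
    simp only [dv, ip, Pi.add_apply, Pi.smul_apply, smul_eq_mul]
    ring
  unfold Phi
  rw [hdv, hdv, RR_apply, ctr_tens, ctr_tens, ctr_tens]
  simp only [map_smul, FunLike.coe_smul, Pi.smul_apply, smul_eq_mul]
  set X := fderiv ℝ (fderiv ℝ h) v κ κ with hX
  change 0 ≤ τ * ip β κ * (τ * ip β κ * X) + τ * ip γ κ * (τ * ip γ κ * X)
    + 2 * (τ * brr B κ * (τ * bss B κ) - τ * brs B κ * (τ * brs B κ))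
  have e : τ * ip β κ * (τ * ip β κ * X) + τ * ip γ κ * (τ * ip γ κ * X)
      + 2 * (τ * brr B κ * (τ * bss B κ) - τ * brs B κ * (τ * brs B κ))
      = τ ^ 2 * (bss B κ * X + 2 * (brr B κ * bss B κ - brs B κ ^ 2)) := by
    rw [← hβγ κ]; ring
  rw [e]
  refine mul_nonneg (sq_nonneg _) ?_
  by_cases hκ : κ = 0
  · have h1 : X = 0 := by rw [hX, hκ]; simp
    have h2 : bss B κ = 0 := by rw [hκ]; simp [bss]
    have h3 : brs B κ = 0 := by rw [hκ]; simp [brs]
    rw [h1, h2, h3]; simp
  · have hb := hpos κ hκ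
    have h1 := hs _ (dt_comb (bss B κ) (-(brs B κ)) κ)
    have h2 : rowL (bss B κ • upL κ + (-(brs B κ)) • dnL κ) = bss B κ • κ := by
      rw [map_add, map_smul, map_smul, row_up, row_dn, smul_zero, add_zero]
    rw [h2] at h1
    simp only [map_smul, map_add, FunLike.coe_smul, Pi.smul_apply, smul_eq_mul,
      _root_.add_apply] at h1
    rw [hsym (dnL κ) (upL κ)] at h1
    change 0 ≤ bss B κ * (bss B κ * X) + 2 * (bss B κ * (bss B κ * brr B κ
      + -(brs B κ) * brs B κ) + -(brs B κ) * (bss B κ * brs B κ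
        + -(brs B κ) * bss B κ)) at h1
    have h3 : 0 ≤ bss B κ * (bss B κ * X + 2 * (brr B κ * bss B κ - brs B κ ^ 2)) := by
      refine h1.trans_eq ?_
      ring
    exact nonneg_of_mul_nonneg_right h3 hb

theorem QZ_row (B : E →L[ℝ] E →L[ℝ] ℝ) (hsym : ∀ F G, B F G = B G F) (β γ : V)
    (hβγ : ∀ κ : V, ip β κ ^ 2 + ip γ κ ^ 2 = bss B κ) (κ c c' : V) (hc : Sl B κ c)
    (hc' : Sl B κ c') : QZ rowL B (RR B) β γ κ c c' = 0 := by
  unfold Sl at hc hc'
  unfold QZ
  rw [hβγ, zt_row, zt_row, RR_apply, ctr_tens, ctr_tens, ctr_tens, ctr_tens, tens_eq, tens_eq]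
  simp only [map_smul, map_add, FunLike.coe_smul, Pi.smul_apply, smul_eq_mul, _root_.add_apply]
  rw [hsym (dnL κ) (upL κ)]
  change bss B κ * (c' 0 * (c 0 * brr B κ + c 1 * brs B κ)
    + c' 1 * (c 0 * brs B κ + c 1 * bss B κ)) - (c 0 * brr B κ * (c' 0 * bss B κ)
      - c 0 * brs B κ * (c' 0 * brs B κ)) = 0
  linear_combination (c' 0 * brs B κ + c' 1 * bss B κ) * hc + (c 0 * brs B κ - c 0 * brs B κ) * hc'

section fam

variable {ι : Type*} [Fintype ι]

/-- the optimal second amplitude -/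
noncomputable def st (B : E →L[ℝ] E →L[ℝ] ℝ) (k : ι → Fin 2 → ℤ) (c : ι → V) : ι → V :=
  fun i => ![c i 0, -(brs B (rv (k i)) / bss B (rv (k i))) * c i 0]

omit [Fintype ι] in
theorem st_Sl (B : E →L[ℝ] E →L[ℝ] ℝ) (hpos : ∀ κ : V, κ ≠ 0 → 0 < bss B κ)
    (k : ι → Fin 2 → ℤ) (c : ι → V) (i : ι) : Sl B (rv (k i)) (st B k c i) := by
  unfold Sl st
  simp only [Matrix.cons_val_zero, Matrix.cons_val_one]
  by_cases h : rv (k i) = 0
  · rw [h]; simp [bss, brs]
  · have := hpos _ h
    field_simp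

/-- the second component can be chosen optimally -/
theorem slave {h : V → ℝ} (hc : Continuous h) (B : E →L[ℝ] E →L[ℝ] ℝ)
    (hsym : ∀ F G, B F G = B G F) (hpos : ∀ κ : V, κ ≠ 0 → 0 < bss B κ) (F₀ : E)
    (k : ι → Fin 2 → ℤ) (c d : ι → V) :
    ∫ x in Icc (0 : V) 1, (fun F : E => h (rowL F) + B F F)
        (F₀ + Fam k (grk k (st B k c)) (grk k (st B k d)) 1 x)
      ≤ ∫ x in Icc (0 : V) 1, (fun F : E => h (rowL F) + B F F)
        (F₀ + Fam k (grk k c) (grk k d) 1 x) := by
  set G := Fam k (grk k (st B k c)) (grk k (st B k d)) 1 with hG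
  set cc : ι → V := fun i => ![0, c i 1 - st B k c i 1] with hcc
  set dd : ι → V := fun i => ![0, d i 1 - st B k d i 1] with hdd
  set N := Fam k (grk k cc) (grk k dd) 1 with hN
  have hsum : ∀ x, Fam k (grk k c) (grk k d) 1 x = G x + N x := by
    intro x
    simp only [hG, hN, Fam_one]
    rw [← Finset.sum_add_distrib]
    refine Finset.sum_congr rfl fun i _ => ?_
    ext r l
    simp only [tm, grk, hcc, hdd, st, Pi.add_apply, Pi.smul_apply, smul_eq_mul]
    fin_cases r
    · simp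
    · simp
      ring
  have hN0 : ∀ x, N x 0 = 0 := by
    intro x
    ext l
    simp [hN, Fam_one, Finset.sum_apply, tm, grk, hcc, hdd]
  have cG : Continuous G := continuous_Fam k _ _ 1
  have cN : Continuous N := continuous_Fam k _ _ 1
  have cF : Continuous (fun x => F₀ + G x) := continuous_const.add cG
  have hrow : ∀ x, rowL (F₀ + (G x + N x)) = rowL (F₀ + G x) := by
    intro x
    simp only [rowL_apply, Pi.add_apply, hN0, add_zero]
  have hNN : ∀ x, 0 ≤ B (N x) (N x) := by
    intro x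
    have e : N x = dnL (N x 1) := by
      have h1 := up_add_dn (N x)
      rw [hN0, map_zero, zero_add] at h1
      exact h1.symm
    rw [e]
    by_cases hz : N x 1 = 0
    · rw [hz]; simp
    · exact (hpos _ hz).le
  have h1 : ∫ x in Icc (0 : V) 1, B F₀ (N x) = 0 := by
    have hcomp : ∀ r l, ∫ x in Icc (0 : V) 1, N x r l = 0 := by
      intro r l
      refine integral_Fam_comp k _ _ (fun i hi => ?_) r l
      have hk : ∀ e : ι → V, grk k e i = 0 := by
        intro e
        ext r l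
        simp [grk, hi]
      exact ⟨hk cc, hk dd⟩
    have hir : ∀ r, Integrable (fun x => N x r) (volume.restrict (Icc (0 : V) 1)) :=
      fun r => ((continuous_apply r).comp cN).integrableOn_Icc
    have hirl : ∀ r l, Integrable (fun x => N x r l) (volume.restrict (Icc (0 : V) 1)) :=
      fun r l => ((continuous_apply l).comp ((continuous_apply r).comp cN)).integrableOn_Icc
    have hz : ∫ x in Icc (0 : V) 1, N x = 0 := by
      ext r l
      rw [eval_integral hir, eval_integral (hirl r), hcomp]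
      rfl
    rw [(B F₀).integral_comp_comm cN.integrableOn_Icc, hz, map_zero]
  have h2 : ∫ x in Icc (0 : V) 1, B (G x) (N x) = 0 := by
    set Q : E →ₗ[ℝ] E →ₗ[ℝ] ℝ := LinearMap.mk₂ ℝ (fun F G => B F G)
      (fun a b c => by simp) (fun s a b => by simp) (fun a b c => by simp)
      (fun s a b => by simp) with hQ
    have hQa : ∀ F G, Q F G = B F G := fun F G => rfl
    have hz : ∀ i j, (k i = k j ∨ k i = - k j) → ∀ (a : V) (s : ℝ), Sl B (rv (k i)) a →
        B (tens a (rv (k i))) (tens ![0, s] (rv (k j))) = 0 := by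
      intro i j hij a s ha
      have key : B (tens a (rv (k i))) (tens ![0, s] (rv (k i))) = 0 := by
        rw [tens_eq, tens_eq]
        simp only [Matrix.cons_val_zero, Matrix.cons_val_one, zero_smul, zero_add, map_smul,
          map_add, FunLike.coe_smul, Pi.smul_apply, smul_eq_mul, _root_.add_apply]
        unfold Sl at ha
        change s * (a 0 * brs B (rv (k i)) + a 1 * bss B (rv (k i))) = 0
        linear_combination s * ha
      rcases hij with h | h
      · rw [← h]; exact key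
      · have e : rv (k j) = - rv (k i) := by rw [h, rv_neg, neg_neg]
        have e2 : tens ![0, s] (rv (k j)) = - tens ![0, s] (rv (k i)) := by
          rw [e]; ext r l; simp [tens]
        rw [e2, map_neg, key, neg_zero]
    have h := orth Q k (grk k (st B k c)) (grk k (st B k d)) (grk k cc) (grk k dd)
      (fun i j hij => ⟨hz i j hij _ _ (st_Sl B hpos k c i), hz i j hij _ _ (st_Sl B hpos k c i),
        hz i j hij _ _ (st_Sl B hpos k d i), hz i j hij _ _ (st_Sl B hpos k d i)⟩)
    rw [← h]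
    refine integral_congr_ae (Eventually.of_forall fun x => ?_)
    simp only
    rw [hQa, ← Fam_eq_TS, ← Fam_eq_TS]
  have cW : Continuous (fun F : E => h (rowL F) + B F F) :=
    (hc.comp rowL.continuous).add (B.continuous.clm_apply continuous_id)
  have i1 : IntegrableOn (fun x => h (rowL (F₀ + G x)) + B (F₀ + G x) (F₀ + G x))
      (Icc (0 : V) 1) := (cW.comp cF).integrableOn_Icc
  have cB1 : Continuous (fun x => B F₀ (N x)) := (B F₀).continuous.comp cN
  have cB2 : Continuous (fun x => B (G x) (N x)) := (B.continuous.comp cG).clm_apply cN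
  have cB : Continuous (fun x => 2 * (B F₀ (N x) + B (G x) (N x))) :=
    continuous_const.mul (cB1.add cB2)
  have h3 : ∫ x in Icc (0 : V) 1, 2 * (B F₀ (N x) + B (G x) (N x)) = 0 := by
    rw [integral_const_mul, integral_add cB1.integrableOn_Icc cB2.integrableOn_Icc, h1, h2]
    simp
  have h4 : (∫ x in Icc (0 : V) 1, (h (rowL (F₀ + G x)) + B (F₀ + G x) (F₀ + G x)))
      = ∫ x in Icc (0 : V) 1, ((h (rowL (F₀ + G x)) + B (F₀ + G x) (F₀ + G x))
        + 2 * (B F₀ (N x) + B (G x) (N x))) := by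
    rw [integral_add i1 cB.integrableOn_Icc, h3, add_zero]
  simp only
  rw [h4]
  refine integral_mono (i1.add cB.integrableOn_Icc) ?_ fun x => ?_
  · exact (cW.comp (continuous_const.add (continuous_Fam k _ _ 1))).integrableOn_Icc
  · simp only
    rw [hsum, hrow]
    simp only [map_add, _root_.add_apply]
    rw [hsym (N x) F₀, hsym (N x) (G x)]
    linarith [hNN x]

/-- **Functions of one row plus a quadratic form**, smooth and strict case. -/
theorem row_trig {h : V → ℝ} (hh : ContDiff ℝ 2 h) (B : E →L[ℝ] E →L[ℝ] ℝ)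
    (hsym : ∀ F G, B F G = B G F) (hpos : ∀ κ : V, κ ≠ 0 → 0 < bss B κ)
    (hs : ∀ (v : V) (H : E), dt H = 0 →
      0 ≤ fderiv ℝ (fderiv ℝ h) v (rowL H) (rowL H) + 2 * B H H) :
    QCtrig (fun F : E => h (rowL F) + B F F) := by
  intro ι _ F₀ k c d
  obtain ⟨β, γ, hβγ, hind⟩ := chol B hsym hpos
  refine le_trans ?_ (slave hh.continuous B hsym hpos F₀ k c d)
  exact trig_gen hh rowL B (RR B) β γ hind Sym (by simp [mem_Sym, H0]) (by simp [mem_Sym, K0])
    (fun κ c => by
      rw [zt_row, mem_Sym]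
      simp only [Pi.smul_apply, smul_eq_mul]
      ring)
    (fun v N hN hd => phi_row B hsym hpos β γ hβγ v (hs v) N hN hd)
    (Sl B) (fun κ c hc => by
      unfold Sl at *
      rw [bss_neg, brs_neg] at hc
      exact hc)
    (fun κ c c' hc hc' => QZ_row B hsym β γ hβγ κ c c' hc hc')
    F₀ k (st B k c) (st B k d) (st_Sl B hpos k c) (st_Sl B hpos k d)

end fam

/-- the scalar product of the second rows -/
noncomputable def DD : E →L[ℝ] E →L[ℝ] ℝ :=
  (Pool.Agent.N555.MQ.en 1 0).smulRight (Pool.Agent.N555.MQ.en 1 0)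
    + (Pool.Agent.N555.MQ.en 1 1).smulRight (Pool.Agent.N555.MQ.en 1 1)

theorem DD_apply (F G : E) : DD F G = F 1 0 * G 1 0 + F 1 1 * G 1 1 := by
  simp [DD, Pool.Agent.N555.MQ.en_apply]

/-- **Functions of one row plus a quadratic form.** -/
theorem row_main {h : V → ℝ} (hc : Continuous h) (B : E →L[ℝ] E →L[ℝ] ℝ)
    (hsym : ∀ F G, B F G = B G F) (hh : HI h rowL B) :
    QCtrig (fun F : E => h (rowL F) + B F F) := by
  refine limit_moll hc rowL B DD fun n => ?_
  have hn : 0 < 1 / ((n : ℝ) + 1) := by positivity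
  have hbss : ∀ κ : V, 0 ≤ bss B κ := by
    intro κ
    have h1 := hh (dnL κ) (by simpa using dt_comb 0 1 κ) (1 / 2) (by norm_num) (by norm_num) 0
    rw [row_dn, smul_zero, add_zero] at h1
    unfold bss
    linarith
  have hBn : ∀ F G, (B + (1 / ((n : ℝ) + 1)) • DD) F G
      = B F G + 1 / ((n : ℝ) + 1) * (F 1 0 * G 1 0 + F 1 1 * G 1 1) := by
    intro F G
    simp only [_root_.add_apply, FunLike.coe_smul, Pi.smul_apply, smul_eq_mul, DD_apply]
  refine row_trig (hm_contDiff hc n) _ (fun F G => ?_) (fun κ hκ => ?_) fun v H hH => ?_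
  · rw [hBn, hBn, hsym]; ring
  · unfold bss
    rw [hBn]
    have h1 := hbss κ
    unfold bss at h1
    have h2 : 0 < κ 0 * κ 0 + κ 1 * κ 1 := by
      have h3 : κ 0 ≠ 0 ∨ κ 1 ≠ 0 := by
        by_contra hcon
        push Not at hcon
        apply hκ
        ext j; fin_cases j
        · exact hcon.1
        · exact hcon.2
      rcases h3 with h3 | h3
      · have := mul_self_pos.2 h3
        have := mul_self_nonneg (κ 1)
        linarith
      · have := mul_self_pos.2 h3
        have := mul_self_nonneg (κ 0)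
        linarith
    have h4 := mul_pos hn h2
    simp only [dnL_apply, Matrix.cons_val_one, Matrix.cons_val_zero] at h1 ⊢
    linarith
  · rw [hBn]
    have h1 := second_roc hc upL row_up hh n v H hH
    have h2 : 0 ≤ 1 / ((n : ℝ) + 1) * (H 1 0 * H 1 0 + H 1 1 * H 1 1) :=
      mul_nonneg hn.le (add_nonneg (mul_self_nonneg _) (mul_self_nonneg _))
    linarith

end Run7.h521.MQ
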