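import Pool.Agent.Run7.h521.MQ.Gen

/-!
# The S-lemma on a subspace and measurable multipliers
-/

set_option autoImplicit false

open MeasureTheory Set Filter Topology

namespace Run7.h521.MQ

open Pool.Agent.W779.Morrey Pool.Agent.N555.MQ

/-- the identity matrix -/
def H0 : E := fun r l => if r = l then 1 else 0

/-- the matrix `diag (1, -1)` -/
def K0 : E := fun r l => if r = l then (if r = 0 then (1:ℝ) else -1) else 0

theorem dt_H0 : dt H0 = 1 := by simp [dt, H0]

theorem dt_K0 : dt K0 = -1 := by simp [dt, K0]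

/-- The two-point form of the S-lemma. -/
theorem two_pointS (S : Submodule ℝ E) (B : E →L[ℝ] E →L[ℝ] ℝ)
    (h : ∀ H : E, H ∈ S → dt H = 0 → 0 ≤ B H H) (H K : E) (hHS : H ∈ S) (hKS : K ∈ S)
    (hH : 0 < dt H) (hK : dt K < 0) : 0 ≤ dt H * B K K - dt K * B H H := by
  set a := dt K with ha
  set c := dt H with hc
  set m := H 0 0 * K 1 1 + K 0 0 * H 1 1 - H 0 1 * K 1 0 - K 0 1 * H 1 0 with hm
  have hdt : ∀ s : ℝ, dt (H + s • K) = c + m * s + a * s ^ 2 := by
    intro s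
    simp only [dt, Pi.add_apply, Pi.smul_apply, smul_eq_mul, hc, ha, hm]
    ring
  set D := m ^ 2 - 4 * a * c with hD
  have hDpos : 0 ≤ D := by nlinarith [sq_nonneg m, mul_pos (neg_pos.2 hK) hH]
  set r := Real.sqrt D with hr
  have hr2 : r ^ 2 = D := Real.sq_sqrt hDpos
  have hr0 : 0 ≤ r := Real.sqrt_nonneg D
  have hrm : m < r ∧ -m < r := by
    have h1 : m ^ 2 < r ^ 2 := by
      rw [hr2, hD]
      nlinarith [mul_pos (neg_pos.2 hK) hH]
    have h2 := abs_lt_of_sq_lt_sq h1 hr0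
    have h3 := abs_lt.1 (by simpa using h2 : |m| < r)
    exact ⟨h3.2, by linarith [h3.1]⟩
  have ha0 : a ≠ 0 := hK.ne
  set s1 := (-m - r) / (2 * a) with hs1
  set s2 := (-m + r) / (2 * a) with hs2
  have e1 : 2 * a * s1 = -m - r := by rw [hs1]; field_simp
  have e2 : 2 * a * s2 = -m + r := by rw [hs2]; field_simp
  have p1 : 0 < s1 := by
    by_contra hcon
    push Not at hcon
    have : 0 ≤ 2 * a * s1 := by nlinarith
    linarith [hrm.2]
  have p2 : s2 < 0 := by
    by_contra hcon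
    push Not at hcon
    have : 2 * a * s2 ≤ 0 := by nlinarith
    linarith [hrm.1]
  have z1 : dt (H + s1 • K) = 0 := by
    rw [hdt]
    have : 4 * a * (c + m * s1 + a * s1 ^ 2) = (2 * a * s1 + m) ^ 2 - D := by rw [hD]; ring
    rw [e1] at this
    have h0 : 4 * a * (c + m * s1 + a * s1 ^ 2) = 0 := by rw [this, ← hr2]; ring
    rcases mul_eq_zero.1 h0 with h1 | h1
    · exfalso; apply ha0; linarith
    · exact h1
  have z2 : dt (H + s2 • K) = 0 := by
    rw [hdt]
    have : 4 * a * (c + m * s2 + a * s2 ^ 2) = (2 * a * s2 + m) ^ 2 - D := by rw [hD]; ring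
    rw [e2] at this
    have h0 : 4 * a * (c + m * s2 + a * s2 ^ 2) = 0 := by rw [this, ← hr2]; ring
    rcases mul_eq_zero.1 h0 with h1 | h1
    · exfalso; apply ha0; linarith
    · exact h1
  have hprod : a * (s1 * s2) = c := by
    have h4 : 4 * a * (a * (s1 * s2)) = 4 * a * c := by
      have : 4 * a * (a * (s1 * s2)) = (2 * a * s1) * (2 * a * s2) := by ring
      rw [this, e1, e2]
      have : (-m - r) * (-m + r) = m ^ 2 - r ^ 2 := by ring
      rw [this, hr2, hD]; ring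
    exact mul_left_cancel₀ (by simpa using ha0 : (4 * a : ℝ) ≠ 0) h4
  have q1 := h _ (S.add_mem hHS (S.smul_mem s1 hKS)) z1
  have q2 := h _ (S.add_mem hHS (S.smul_mem s2 hKS)) z2
  simp only [map_add, map_smul, _root_.add_apply, FunLike.coe_smul, Pi.smul_apply,
    smul_eq_mul] at q1 q2
  have q3 : 0 ≤ (s1 - s2) * (B H H - s1 * s2 * B K K) := by
    have w1 := mul_nonneg (neg_pos.2 p2).le q1
    have w2 := mul_nonneg p1.le q2
    nlinarith
  have q4 : 0 ≤ B H H - s1 * s2 * B K K := by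
    by_contra hcon
    push Not at hcon
    have : (s1 - s2) * (B H H - s1 * s2 * B K K) < 0 := mul_neg_of_pos_of_neg (by linarith) hcon
    linarith
  have q5 := mul_nonneg (neg_pos.2 hK).le q4
  have q6 : -a * (B H H - s1 * s2 * B K K) = c * B K K - a * B H H := by
    rw [← hprod]; ring
  rw [q6] at q5
  exact q5

/-- The S-lemma on a subspace. -/
theorem slemmaS (S : Submodule ℝ E) (h0 : H0 ∈ S) (k0 : K0 ∈ S) (B : E →L[ℝ] E →L[ℝ] ℝ)
    (h : ∀ H : E, H ∈ S → dt H = 0 → 0 ≤ B H H) :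
    ∃ l : ℝ, ∀ H : E, H ∈ S → 0 ≤ B H H + l * dt H := by
  set T : Set ℝ := {y | ∃ H : E, H ∈ S ∧ 0 < dt H ∧ y = -(B H H) / dt H} with hT
  have hub : ∀ K : E, K ∈ S → dt K < 0 → ∀ y ∈ T, y ≤ B K K / (-dt K) := by
    rintro K hKS hK y ⟨H, hHS, hH, rfl⟩
    rw [div_le_div_iff₀ hH (neg_pos.2 hK)]
    have := two_pointS S B h H K hHS hKS hH hK
    nlinarith
  have hne : T.Nonempty := ⟨_, H0, h0, by rw [dt_H0]; norm_num, rfl⟩
  have hbdd : BddAbove T := ⟨_, fun y hy => hub _ k0 (by rw [dt_K0]; norm_num) y hy⟩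
  refine ⟨sSup T, fun H hHS => ?_⟩
  rcases lt_trichotomy (dt H) 0 with hH | hH | hH
  · have h1 := csSup_le hne (hub H hHS hH)
    rw [le_div_iff₀ (neg_pos.2 hH)] at h1
    linarith
  · rw [hH, mul_zero, add_zero]
    exact h H hHS hH
  · have h1 : -(B H H) / dt H ≤ sSup T := le_csSup hbdd ⟨H, hHS, hH, rfl⟩
    rw [div_le_iff₀ hH] at h1
    linarith

/-- `dv` as a continuous linear map -/
noncomputable def dvL (β : V) : E →L[ℝ] V :=
  β 0 • (ContinuousLinearMap.proj (R := ℝ) (φ := fun _ : Fin 2 => V) 0)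
    + β 1 • (ContinuousLinearMap.proj (R := ℝ) (φ := fun _ : Fin 2 => V) 1)

theorem dvL_apply (β : V) (N : E) : dvL β N = dv β N := by
  simp [dvL, dv]

/-- the bilinear form of `Phi` -/
noncomputable def BPhi (h : V → ℝ) (R : E →L[ℝ] E →L[ℝ] ℝ) (β γ : V) (v : V) :
    E →L[ℝ] E →L[ℝ] ℝ :=
  (fderiv ℝ (fderiv ℝ h) v).bilinearComp (dvL β) (dvL β)
    + (fderiv ℝ (fderiv ℝ h) v).bilinearComp (dvL γ) (dvL γ) + (2 : ℝ) • R

theorem BPhi_apply (h : V → ℝ) (R : E →L[ℝ] E →L[ℝ] ℝ) (β γ : V) (v : V) (N : E) :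
    BPhi h R β γ v N N = Phi h R β γ v N := by
  simp [BPhi, Phi, dvL_apply]

theorem continuous_Phi {h : V → ℝ} (hh : ContDiff ℝ 2 h) (R : E →L[ℝ] E →L[ℝ] ℝ) (β γ : V)
    (N : E) : Continuous (fun v => Phi h R β γ v N) := by
  have hh1 : ContDiff ℝ 1 (fderiv ℝ h) := hh.fderiv_right (by norm_num)
  have hhc : Continuous (fderiv ℝ (fderiv ℝ h)) := hh1.continuous_fderiv (by norm_num)
  unfold Phi
  exact (((hhc.clm_apply continuous_const).clm_apply continuous_const).add
    ((hhc.clm_apply continuous_const).clm_apply continuous_const)).add continuous_const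

/-- a measurable and locally bounded choice of the multiplier -/
theorem sel_gen {h : V → ℝ} (hh : ContDiff ℝ 2 h) (R : E →L[ℝ] E →L[ℝ] ℝ) (β γ : V)
    (S : Submodule ℝ E) (h0 : H0 ∈ S) (k0 : K0 ∈ S)
    (hp : ∀ (v : V) (N : E), N ∈ S → dt N = 0 → 0 ≤ Phi h R β γ v N) :
    ∃ ℓ : V → ℝ, Measurable ℓ ∧ (∀ R : ℝ, ∃ C : ℝ, ∀ v : V, ‖v‖ ≤ R → |ℓ v| ≤ C) ∧
      ∀ (v : V) (N : E), N ∈ S → 0 ≤ Phi h R β γ v N + ℓ v * dt N := by
  have hp2 : ∀ v : V, ∃ l : ℝ, ∀ N : E, N ∈ S → 0 ≤ Phi h R β γ v N + l * dt N := by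
    intro v
    obtain ⟨l, hl⟩ := slemmaS S h0 k0 (BPhi h R β γ v) (fun N hN hd => by
      rw [BPhi_apply]; exact hp v N hN hd)
    exact ⟨l, fun N hN => by have := hl N hN; rwa [BPhi_apply] at this⟩
  choose L hL using hp2
  set I := {N : E // N ∈ S ∧ 0 < dt N} with hI
  set f : I → V → ℝ := fun i v => -(Phi h R β γ v i.1) / dt i.1 with hf
  have hfc : ∀ i, Continuous (f i) := by
    intro i
    simp only [hf]
    exact (continuous_Phi hh R β γ i.1).neg.div_const _
  have hfL : ∀ v i, f i v ≤ L v := by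
    intro v i
    simp only [hf]
    rw [div_le_iff₀ i.2.2]
    have := hL v i.1 i.2.1
    linarith
  have hbdd : ∀ v, BddAbove (range fun i => f i v) := by
    intro v
    refine ⟨L v, ?_⟩
    rintro y ⟨i, rfl⟩
    exact hfL v i
  set i0 : I := ⟨H0, h0, by rw [dt_H0]; norm_num⟩ with hi0
  have : Nonempty I := ⟨i0⟩
  set ℓ : V → ℝ := fun v => ⨆ i, f i v with hℓ
  have hmeas : Measurable ℓ :=
    (lowerSemicontinuous_ciSup hbdd fun i => (hfc i).lowerSemicontinuous).measurable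
  have hℓL : ∀ v, ℓ v ≤ L v := fun v => ciSup_le fun i => hfL v i
  have hℓf : ∀ v i, f i v ≤ ℓ v := fun v i => le_ciSup (hbdd v) i
  refine ⟨ℓ, hmeas, ?_, ?_⟩
  · intro r
    obtain ⟨C1, hC1⟩ := (isCompact_closedBall (0 : V) r).exists_bound_of_continuousOn
      (hfc i0).continuousOn
    obtain ⟨C2, hC2⟩ := (isCompact_closedBall (0 : V) r).exists_bound_of_continuousOn
      (continuous_Phi hh R β γ K0).continuousOn
    refine ⟨max C1 C2, fun v hv => ?_⟩
    have hv' : v ∈ Metric.closedBall (0 : V) r := by rwa [mem_closedBall_zero_iff]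
    have b1 := hC1 v hv'
    have b2 := hC2 v hv'
    rw [Real.norm_eq_abs] at b1 b2
    rw [abs_le]
    constructor
    · have := (abs_le.1 b1).1
      have h2 := hℓf v i0
      have h3 := le_max_left C1 C2
      linarith
    · have h2 := hL v K0 k0
      rw [dt_K0] at h2
      have h3 := hℓL v
      have h4 := (abs_le.1 b2).2
      have h5 := le_max_right C1 C2
      linarith
  · intro v N hN
    rcases lt_or_ge 0 (dt N) with hH | hH
    · have h1 := hℓf v ⟨N, hN, hH⟩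
      simp only [hf] at h1
      rw [div_le_iff₀ hH] at h1
      linarith
    · have h1 := hL v N hN
      have h2 : L v * dt N ≤ ℓ v * dt N := mul_le_mul_of_nonpos_right (hℓL v) hH
      linarith

end Run7.h521.MQ
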